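import Pool.Agent.Work.MP_dc37f8_bk.Interface

/-! Block PAIR: second moment. -/

set_option autoImplicit false

open Finset

namespace Pool.BK

namespace PAIR

lemma iso_dist {g : Gp} (hg : IsIso g) (z w : ℂ) : dist (g z) (g w) = dist z w := by
  rcases hg with ⟨u, t, hu, h⟩ | ⟨u, t, hu, h⟩
  · rw [h, h, dist_eq_norm, dist_eq_norm]
    have : u * z + t - (u * w + t) = u * (z - w) := by ring
    rw [this, norm_mul, hu, one_mul]
  · rw [h, h, dist_eq_norm, dist_eq_norm]
    have : u * (starRingEnd ℂ) z + t - (u * (starRingEnd ℂ) w + t) =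
        u * (starRingEnd ℂ) (z - w) := by
      rw [map_sub]; ring
    rw [this, norm_mul, hu, one_mul, RCLike.norm_conj]

/-- points on a bisector -/
lemma bisector {p a b : ℂ} (hab : a ≠ b) (h : dist p a = dist p b) :
    ∃ s : ℝ, p = (a + b) / 2 + s * (Complex.I * (b - a)) := by
  have h1 : (p.re - a.re) ^ 2 + (p.im - a.im) ^ 2 = (p.re - b.re) ^ 2 + (p.im - b.im) ^ 2 := by
    rw [Complex.dist_eq, Complex.dist_eq] at h
    have h2 : ‖p - a‖ ^ 2 = ‖p - b‖ ^ 2 := by rw [h]
    rw [← Complex.normSq_eq_norm_sq, ← Complex.normSq_eq_norm_sq, Complex.normSq_apply,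
      Complex.normSq_apply] at h2
    simp only [Complex.sub_re, Complex.sub_im] at h2
    nlinarith [h2]
  have hD : (b.re - a.re) ^ 2 + (b.im - a.im) ^ 2 ≠ 0 := by
    intro h0
    apply hab
    have e1 : b.re - a.re = 0 := by nlinarith [sq_nonneg (b.re - a.re), sq_nonneg (b.im - a.im)]
    have e2 : b.im - a.im = 0 := by nlinarith [sq_nonneg (b.re - a.re), sq_nonneg (b.im - a.im)]
    apply Complex.ext <;> linarith
  obtain ⟨s, hs⟩ : ∃ s : ℝ, s * ((b.re - a.re) ^ 2 + (b.im - a.im) ^ 2) =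
      -(p.re - (a.re + b.re) / 2) * (b.im - a.im) + (p.im - (a.im + b.im) / 2) *
        (b.re - a.re) := ⟨_, div_mul_cancel₀ _ hD⟩
  refine ⟨s, ?_⟩
  have e1 : p.re = (a.re + b.re) / 2 - s * (b.im - a.im) := by
    apply mul_left_cancel₀ hD
    linear_combination (b.im - a.im) * hs + (b.re - a.re) / 2 * h1
  have e2 : p.im = (a.im + b.im) / 2 + s * (b.re - a.re) := by
    apply mul_left_cancel₀ hD
    linear_combination (-(b.re - a.re)) * hs + (b.im - a.im) / 2 * h1
  apply Complex.ext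
  · simp
    rw [e1]; ring
  · simp
    rw [e2]

open Classical in
lemma iso_count {P : Finset ℂ} {k : ℕ} (hP : LB P k) :
    ((P ×ˢ P ×ˢ P).filter (fun z => dist z.1 z.2.1 = dist z.1 z.2.2)).card ≤
      (k + 1) * P.card ^ 2 := by
  have h1 : ((P ×ˢ P ×ˢ P).filter (fun z => dist z.1 z.2.1 = dist z.1 z.2.2)).card ≤
      ∑ ab ∈ P ×ˢ P, (P.filter (fun p => dist p ab.1 = dist p ab.2)).card := by
    rw [← Finset.card_sigma]
    apply Finset.card_le_card_of_injOn (fun z => (⟨z.2, z.1⟩ : Σ _ : ℂ × ℂ, ℂ))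
    · intro z hz
      simp only [Finset.coe_filter, Finset.mem_product, Set.mem_ofPred_eq] at hz
      simp only [Finset.coe_sigma, Set.mem_sigma_iff, Finset.mem_coe, Finset.mem_product,
        Finset.mem_filter]
      exact ⟨hz.1.2, hz.1.1, hz.2⟩
    · rintro ⟨p, a⟩ _ ⟨q, b⟩ _ h
      simp only [Sigma.mk.injEq] at h
      obtain ⟨h1, h2⟩ := h
      subst h1
      rw [eq_of_heq h2]
  refine h1.trans ?_
  have h2 : ∀ ab ∈ P ×ˢ P, (P.filter (fun p => dist p ab.1 = dist p ab.2)).card ≤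
      k + (if ab.1 = ab.2 then P.card else 0) := by
    intro ab _
    split_ifs with h
    · exact (Finset.card_filter_le _ _).trans (Nat.le_add_left _ _)
    · refine le_trans (Finset.card_le_card ?_)
        ((hP ((ab.1 + ab.2) / 2) (Complex.I * (ab.2 - ab.1)) ?_).trans (Nat.le_add_right _ _))
      · intro p hp
        rw [Finset.mem_filter] at hp ⊢
        exact ⟨hp.1, bisector h hp.2⟩
      · exact mul_ne_zero Complex.I_ne_zero (sub_ne_zero.mpr (Ne.symm h))
  refine (Finset.sum_le_sum h2).trans ?_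
  rw [Finset.sum_add_distrib, Finset.sum_const, Finset.card_product, smul_eq_mul,
    ← Finset.sum_filter, Finset.sum_const, smul_eq_mul]
  have h3 : ((P ×ˢ P).filter (fun ab => ab.1 = ab.2)).card ≤ P.card := by
    apply Finset.card_le_card_of_injOn Prod.fst
    · intro z hz
      simp only [Finset.coe_filter, Finset.mem_product, Set.mem_ofPred_eq] at hz
      exact hz.1.1
    · rintro ⟨a, b⟩ hz ⟨c, d⟩ hw h
      simp only [Finset.coe_filter, Finset.mem_product, Set.mem_ofPred_eq] at hz hw h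
      rw [← hz.2, ← hw.2, h]
  nlinarith [Nat.mul_le_mul_right P.card h3]

open Classical in
/-- quadruples with equal distances -/
lemma quad_count {P : Finset ℂ} {k : ℕ} (hP : LB P k) :
    ((P.offDiag ×ˢ P.offDiag).filter
      (fun z => dist z.1.1 z.1.2 = dist z.2.1 z.2.2)).card ≤ (k + 1) * P.card ^ 3 := by
  obtain ⟨D, hD⟩ : ∃ D : Finset ℝ, D = P.offDiag.image (fun z => dist z.1 z.2) := ⟨_, rfl⟩
  -- the number of quadruples
  have e1 : ((P.offDiag ×ˢ P.offDiag).filter
      (fun z => dist z.1.1 z.1.2 = dist z.2.1 z.2.2)).card =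
      ∑ d ∈ D, ((P.offDiag.filter (fun z => dist z.1 z.2 = d)).card) ^ 2 := by
    rw [Finset.card_eq_sum_card_fiberwise (f := fun z => dist z.1.1 z.1.2) (t := D)]
    · apply Finset.sum_congr rfl
      intro d _
      rw [pow_two, ← Finset.card_product]
      congr 1
      ext z
      simp only [Finset.mem_filter, Finset.mem_product]
      constructor
      · rintro ⟨⟨⟨h1, h2⟩, h3⟩, h4⟩
        exact ⟨⟨h1, h4⟩, h2, by rw [← h3, h4]⟩
      · rintro ⟨⟨h1, h2⟩, h3, h4⟩
        exact ⟨⟨⟨h1, h3⟩, by rw [h2, h4]⟩, h2⟩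
    · intro z hz
      simp only [Finset.coe_filter, Finset.mem_product, Set.mem_ofPred_eq] at hz
      rw [hD]
      exact Finset.mem_coe.mpr (Finset.mem_image.mpr ⟨z.1, hz.1.1, rfl⟩)
  have e2 : ∀ d, (P.offDiag.filter (fun z => dist z.1 z.2 = d)).card =
      ∑ p ∈ P, (P.filter (fun q => p ≠ q ∧ dist p q = d)).card := by
    intro d
    rw [Finset.card_eq_sum_card_fiberwise (f := Prod.fst) (t := P)]
    · apply Finset.sum_congr rfl
      intro p hp
      apply Finset.card_bij (fun z _ => z.2)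
      · rintro ⟨a, b⟩ hz
        simp only [Finset.mem_filter, Finset.mem_offDiag] at hz ⊢
        obtain ⟨⟨⟨h1, h2, h3⟩, h4⟩, rfl⟩ := hz
        exact ⟨h2, h3, h4⟩
      · rintro ⟨a, b⟩ hz ⟨c, e⟩ hw h
        simp only [Finset.mem_filter] at hz hw h
        rw [h, hz.2, hw.2]
      · intro q hq
        simp only [Finset.mem_filter] at hq
        exact ⟨(p, q), by simp only [Finset.mem_filter, Finset.mem_offDiag]; exact
          ⟨⟨⟨hp, hq.1, hq.2.1⟩, hq.2.2⟩, trivial⟩, rfl⟩
    · intro z hz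
      simp only [Finset.coe_filter, Finset.mem_offDiag, Set.mem_ofPred_eq] at hz
      exact hz.1.1
  have e3 : ∀ d, ((P.offDiag.filter (fun z => dist z.1 z.2 = d)).card) ^ 2 ≤
      P.card * ∑ p ∈ P, (P.filter (fun q => p ≠ q ∧ dist p q = d)).card ^ 2 := by
    intro d
    rw [e2]
    exact sq_sum_le_card_mul_sum_sq
  rw [e1]
  calc ∑ d ∈ D, ((P.offDiag.filter (fun z => dist z.1 z.2 = d)).card) ^ 2
      ≤ ∑ d ∈ D, P.card * ∑ p ∈ P, (P.filter (fun q => p ≠ q ∧ dist p q = d)).card ^ 2 :=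
        Finset.sum_le_sum fun d _ => e3 d
    _ = P.card * ∑ d ∈ D, ∑ p ∈ P, (P.filter (fun q => p ≠ q ∧ dist p q = d)).card ^ 2 := by
        rw [Finset.mul_sum]
    _ ≤ P.card * ((k + 1) * P.card ^ 2) := by
        apply Nat.mul_le_mul_left
        refine le_trans ?_ (iso_count hP)
        rw [← Finset.sum_product', ]
        have : ∀ dp ∈ D ×ˢ P, (P.filter (fun q => dp.2 ≠ q ∧ dist dp.2 q = dp.1)).card ^ 2 =
            ((P.filter (fun q => dp.2 ≠ q ∧ dist dp.2 q = dp.1)) ×ˢ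
              (P.filter (fun q => dp.2 ≠ q ∧ dist dp.2 q = dp.1))).card := by
          intro dp _
          rw [Finset.card_product, pow_two]
        rw [Finset.sum_congr rfl this, ← Finset.card_sigma]
        apply Finset.card_le_card_of_injOn (fun z => (z.1.2, z.2))
        · rintro ⟨⟨d, p⟩, a, b⟩ hz
          simp only [Finset.coe_sigma, Set.mem_sigma_iff, Finset.mem_coe, Finset.mem_product,
            Finset.mem_filter] at hz
          simp only [Finset.coe_filter, Finset.mem_product, Set.mem_ofPred_eq]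
          obtain ⟨⟨_, hp⟩, ⟨ha, _, had⟩, hb, _, hbd⟩ := hz
          exact ⟨⟨hp, ha, hb⟩, by rw [had, hbd]⟩
        · rintro ⟨⟨d, p⟩, a, b⟩ hz ⟨⟨d', p'⟩, a', b'⟩ hw h
          simp only [Finset.coe_sigma, Set.mem_sigma_iff, Finset.mem_coe, Finset.mem_product,
            Finset.mem_filter] at hz hw
          simp only [Prod.mk.injEq] at h
          obtain ⟨rfl, rfl, rfl⟩ := h
          obtain ⟨_, ⟨_, _, had⟩, _⟩ := hz
          obtain ⟨_, ⟨_, _, had'⟩, _⟩ := hw
          rw [← had, ← had']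
    _ = (k + 1) * P.card ^ 3 := by ring

end PAIR

open PAIR in
theorem stmt_PAIR (hT : Stmt_TWO) : Stmt_PAIR := by
  classical
  intro P k hP 𝒢 h𝒢
  have h1 : ∑ g ∈ 𝒢, (st P g).offDiag.card ≤ 2 * ((P.offDiag ×ˢ P.offDiag).filter
      (fun z => dist z.1.1 z.1.2 = dist z.2.1 z.2.2)).card := by
    rw [← Finset.card_sigma]
    apply Finset.card_le_mul_card_image_of_maps_to
      (f := fun x : (Σ _ : Gp, ℂ × ℂ) => (x.2, (x.1 x.2.1, x.1 x.2.2)))
    · rintro ⟨g, p, q⟩ hx
      simp only [Finset.mem_sigma, Finset.mem_offDiag, st, Finset.mem_filter] at hx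
      obtain ⟨hg, ⟨hp, hgp⟩, ⟨hq, hgq⟩, hne⟩ := hx
      simp only [Finset.mem_filter, Finset.mem_product, Finset.mem_offDiag]
      exact ⟨⟨⟨hp, hq, hne⟩, hgp, hgq, fun h => hne (g.injective h)⟩,
        (iso_dist (h𝒢 g hg) p q).symm⟩
    · rintro ⟨⟨a, b⟩, c, d⟩ hx
      simp only [Finset.mem_filter, Finset.mem_product, Finset.mem_offDiag] at hx
      have hne : a ≠ b := hx.1.1.2.2
      refine le_trans ?_ (hT a b c d hne (𝒢.filter fun g => g a = c ∧ g b = d) ?_)
      · apply Finset.card_le_card_of_injOn (fun x => x.1)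
        · rintro ⟨g, p, q⟩ hx
          simp only [Finset.coe_filter, Finset.mem_sigma, Set.mem_ofPred_eq, Prod.mk.injEq] at hx
          obtain ⟨⟨hg, _⟩, ⟨rfl, rfl⟩, h3, h4⟩ := hx
          exact Finset.mem_coe.mpr (Finset.mem_filter.mpr ⟨hg, h3, h4⟩)
        · rintro ⟨g, p, q⟩ hx ⟨g', p', q'⟩ hx' h
          simp only [Finset.coe_filter, Finset.mem_sigma, Set.mem_ofPred_eq, Prod.mk.injEq] at hx hx' h
          obtain ⟨_, ⟨rfl, rfl⟩, _⟩ := hx
          obtain ⟨_, ⟨rfl, rfl⟩, _⟩ := hx'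
          subst h
          rfl
      · intro g hg
        rw [Finset.mem_filter] at hg
        exact ⟨h𝒢 g hg.1, hg.2⟩
  have h2 := h1.trans (Nat.mul_le_mul_left 2 (quad_count hP))
  have h3 : ∑ g ∈ 𝒢, ((st P g).card : ℝ) * ((st P g).card - 1) =
      ((∑ g ∈ 𝒢, (st P g).offDiag.card : ℕ) : ℝ) := by
    push_cast
    apply Finset.sum_congr rfl
    intro g _
    rw [Finset.offDiag_card, Nat.cast_sub (Nat.le_mul_self _)]
    push_cast
    ring
  rw [h3]
  calc ((∑ g ∈ 𝒢, (st P g).offDiag.card : ℕ) : ℝ) ≤ ((2 * ((k + 1) * P.card ^ 3) : ℕ) : ℝ) := by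
        exact_mod_cast h2
    _ = 2 * (k + 1) * (P.card : ℝ) ^ 3 := by push_cast; ring

end Pool.BK
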