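import Pool.Agent.Work.MP_dc37f8_bk.Interface
import Pool.Agent.Work.MP_dc37f8_co.Paths

set_option autoImplicit false
set_option maxHeartbeats 4000000

open Finset
open scoped Pointwise

namespace Pool.BK.BSG

/-- the sumset estimate from many paths of length three -/
lemma quot_le {G : Type} [Group G] [DecidableEq G] (A U A' B' : Finset G) (c : ℝ)
    (h : ∀ a ∈ A', ∀ b ∈ B', c * (A.card : ℝ) ^ 2 ≤
        ((A ×ˢ A).filter (fun z => a * z.1⁻¹ ∈ U ∧ z.2 * z.1⁻¹ ∈ U ∧ z.2 * b⁻¹ ∈ U)).card) :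
    ((A' * B'⁻¹).card : ℝ) * (c * (A.card : ℝ) ^ 2) ≤ (U.card : ℝ) ^ 3 := by
  classical
  let f : G × G × G → G := fun u => u.1 * u.2.1⁻¹ * u.2.2
  let S : Finset (G × G × G) := (U ×ˢ U ×ˢ U).filter (fun u => f u ∈ A' * B'⁻¹)
  have hS : (S.card : ℝ) ≤ (U.card : ℝ) ^ 3 := by
    have h1 : S.card ≤ U.card ^ 3 := by
      refine (card_filter_le _ _).trans ?_
      rw [card_product, card_product]
      apply le_of_eq; ring
    exact_mod_cast h1
  refine le_trans ?_ hS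
  have hsum : S.card = ∑ g ∈ A' * B'⁻¹, (S.filter (fun u => f u = g)).card :=
    card_eq_sum_card_fiberwise (fun u hu => by
      have := (mem_filter.mp (mem_coe.mp hu)).2
      exact mem_coe.mpr this)
  rw [hsum, Nat.cast_sum, ← nsmul_eq_mul, ← sum_const]
  apply sum_le_sum
  intro g hg
  obtain ⟨a, ha, b', hb', hab⟩ := mem_mul.mp hg
  obtain ⟨b, hb, rfl⟩ := mem_inv.mp hb'
  refine (h a ha b hb).trans ?_
  have hle : ((A ×ˢ A).filter (fun z => a * z.1⁻¹ ∈ U ∧ z.2 * z.1⁻¹ ∈ U ∧ z.2 * b⁻¹ ∈ U)).card ≤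
      (S.filter (fun u => f u = g)).card := by
    apply card_le_card_of_injOn (fun z : G × G => (a * z.1⁻¹, z.2 * z.1⁻¹, z.2 * b⁻¹))
    · rintro ⟨z1, z2⟩ hz
      have hz' := (mem_filter.mp (mem_coe.mp hz)).2
      apply mem_coe.mpr
      have hf : f (a * z1⁻¹, z2 * z1⁻¹, z2 * b⁻¹) = g := by
        show a * z1⁻¹ * (z2 * z1⁻¹)⁻¹ * (z2 * b⁻¹) = g
        rw [← hab]; group
      rw [mem_filter, mem_filter, mem_product, mem_product]
      refine ⟨⟨⟨hz'.1, hz'.2.1, hz'.2.2⟩, ?_⟩, hf⟩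
      show f (a * z1⁻¹, z2 * z1⁻¹, z2 * b⁻¹) ∈ A' * B'⁻¹
      rw [hf]; exact hg
    · rintro ⟨z1, z2⟩ _ ⟨w1, w2⟩ _ heq
      simp only [Prod.mk.injEq] at heq
      obtain ⟨h1, _, h3⟩ := heq
      have e1 : z1 = w1 := inv_injective (mul_left_cancel h1)
      have e2 : z2 = w2 := mul_right_cancel h3
      rw [e1, e2]
  exact_mod_cast hle

end Pool.BK.BSG

namespace Pool.BK

theorem stmt_BSG : Stmt_BSG := by
  intro α K hα hK
  obtain ⟨c5, hc5, hc5'⟩ : ∃ c5 : ℝ, 0 < c5 ∧ c5 = α ^ 5 / 3072 := ⟨_, by positivity, rfl⟩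
  refine ⟨α / 6, max 1 ((K ^ 3 / c5) ^ 2 * (4 / α) * (6 / α)), by positivity, le_max_left _ _, ?_⟩
  intro G _ _ A U hA hG hU
  obtain ⟨A', hA', B', hB', hA'c, hB'c, hpaths⟩ :=
    Pool.Agent.ConvTri.many_paths A (fun a b => a * b⁻¹ ∈ U) hα hA hG
  refine ⟨A', hA', hA'c, ?_⟩
  have hn : (0 : ℝ) < A.card := by exact_mod_cast hA.card_pos
  have hq := BSG.quot_le A U A' B' c5 (by rw [hc5']; exact hpaths)
  have hq2 : ((A' * B'⁻¹).card : ℝ) ≤ K ^ 3 / c5 * A.card := by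
    have h1 : ((A' * B'⁻¹).card : ℝ) * (c5 * (A.card : ℝ) ^ 2) ≤ (K * A.card) ^ 3 :=
      hq.trans (by gcongr)
    have h2 : ((A' * B'⁻¹).card : ℝ) * (c5 * (A.card : ℝ) ^ 2) ≤
        (K ^ 3 / c5 * A.card) * (c5 * (A.card : ℝ) ^ 2) := by
      refine h1.trans (le_of_eq ?_)
      field_simp
    exact le_of_mul_le_mul_right h2 (by positivity)
  have hr := ruzsa_triangle_inequality_mulInv_mulInv_mulInv A' B' A'
  have hr' : ((A' * A'⁻¹).card : ℝ) * B'.card ≤ (K ^ 3 / c5 * A.card) * (K ^ 3 / c5 * A.card) := by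
    have : ((A' * A'⁻¹).card : ℝ) * B'.card ≤ ((A' * B'⁻¹).card : ℝ) * (A' * B'⁻¹).card := by
      exact_mod_cast hr
    refine this.trans ?_
    gcongr
  have h3 : ((A' * A'⁻¹).card : ℝ) * (α / 4 * A.card) ≤
      (K ^ 3 / c5 * A.card) * (K ^ 3 / c5 * A.card) := by
    refine le_trans ?_ hr'
    gcongr
  have h4 : ((A' * A'⁻¹).card : ℝ) ≤ (K ^ 3 / c5) ^ 2 * (4 / α) * A.card := by
    have h5 : ((A' * A'⁻¹).card : ℝ) * (α / 4 * A.card) ≤
        ((K ^ 3 / c5) ^ 2 * (4 / α) * A.card) * (α / 4 * A.card) := by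
      refine h3.trans (le_of_eq ?_)
      field_simp
    exact le_of_mul_le_mul_right h5 (by positivity)
  have h6 : (A.card : ℝ) ≤ 6 / α * A'.card := by
    have : 6 / α * (α / 6 * (A.card : ℝ)) ≤ 6 / α * A'.card := by gcongr
    refine le_trans (le_of_eq ?_) this
    field_simp
  calc ((A' * A'⁻¹).card : ℝ) ≤ (K ^ 3 / c5) ^ 2 * (4 / α) * A.card := h4
    _ ≤ (K ^ 3 / c5) ^ 2 * (4 / α) * (6 / α * A'.card) := by gcongr
    _ = (K ^ 3 / c5) ^ 2 * (4 / α) * (6 / α) * A'.card := by ring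
    _ ≤ max 1 ((K ^ 3 / c5) ^ 2 * (4 / α) * (6 / α)) * A'.card := by
        gcongr
        exact le_max_right _ _

end Pool.BK
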