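import Pool.Agent.Work.MP_dc37f8_bk.Interface

/-!
# MP_dc37f8_co: block CON (congruent triples are mapped to each other)
-/

set_option autoImplicit false

namespace Pool.BK.CONG

open Complex ComplexConjugate

/-- `z ↦ w z + t` -/
noncomputable def dirP (w t : ℂ) (hw : w ≠ 0) : Gp where
  toFun z := w * z + t
  invFun z := (z - t) / w
  left_inv z := by field_simp; ring
  right_inv z := by field_simp; ring

/-- `z ↦ w z̄ + t` -/
noncomputable def oppP (w t : ℂ) (hw : w ≠ 0) : Gp where
  toFun z := w * conj z + t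
  invFun z := conj ((z - t) / w)
  left_inv z := by
    have : (w * conj z + t - t) / w = conj z := by field_simp; ring
    change conj ((w * conj z + t - t) / w) = z
    rw [this, conj_conj]
  right_inv z := by
    change w * conj (conj ((z - t) / w)) + t = z
    rw [conj_conj]; field_simp; ring

lemma dirP_apply (w t : ℂ) (hw : w ≠ 0) (z : ℂ) : dirP w t hw z = w * z + t := rfl
lemma oppP_apply (w t : ℂ) (hw : w ≠ 0) (z : ℂ) : oppP w t hw z = w * conj z + t := rfl

lemma re_im (u v : ℂ) (h1 : ‖u‖ = ‖v‖) (h2 : ‖u - 1‖ = ‖v - 1‖) : u = v ∨ conj u = v := by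
  have e1 : u.re ^ 2 + u.im ^ 2 = v.re ^ 2 + v.im ^ 2 := by
    have : normSq u = normSq v := by rw [normSq_eq_norm_sq, normSq_eq_norm_sq, h1]
    rw [normSq_apply, normSq_apply] at this
    linear_combination this
  have e2 : (u.re - 1) ^ 2 + u.im ^ 2 = (v.re - 1) ^ 2 + v.im ^ 2 := by
    have : normSq (u - 1) = normSq (v - 1) := by rw [normSq_eq_norm_sq, normSq_eq_norm_sq, h2]
    rw [normSq_apply, normSq_apply] at this
    simp only [sub_re, sub_im, one_re, one_im, sub_zero] at this
    linear_combination this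
  have hre : u.re = v.re := by linear_combination (e1 - e2) / 2
  have him : (u.im - v.im) * (u.im + v.im) = 0 := by
    rw [hre] at e1; linear_combination e1
  rcases mul_eq_zero.mp him with h | h
  · left
    apply Complex.ext hre
    linear_combination h
  · right
    apply Complex.ext
    · simpa using hre
    · rw [conj_im]; linear_combination -h

end Pool.BK.CONG

namespace Pool.BK

open Complex ComplexConjugate CONG

theorem stmt_CON : Stmt_CON := by
  intro a b c a' b' c' hab h1 h2 h3
  have hba : b - a ≠ 0 := sub_ne_zero.mpr (Ne.symm hab)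
  have hn : ‖b - a‖ = ‖b' - a'‖ := by
    rw [dist_eq_norm, dist_eq_norm, norm_sub_rev, norm_sub_rev a'] at h1
    exact h1
  have hnpos : ‖b - a‖ ≠ 0 := norm_ne_zero_iff.mpr hba
  have hba' : b' - a' ≠ 0 := by
    rw [← norm_ne_zero_iff, ← hn]; exact hnpos
  set u := (c - a) / (b - a) with hu
  set v := (c' - a') / (b' - a') with hv
  have huv1 : ‖u‖ = ‖v‖ := by
    rw [hu, hv, norm_div, norm_div, ← hn]
    rw [dist_eq_norm, dist_eq_norm, norm_sub_rev, norm_sub_rev a'] at h3
    rw [h3]
  have huv2 : ‖u - 1‖ = ‖v - 1‖ := by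
    have e1 : u - 1 = (c - b) / (b - a) := by rw [hu]; field_simp; ring
    have e2 : v - 1 = (c' - b') / (b' - a') := by rw [hv]; field_simp; ring
    rw [e1, e2, norm_div, norm_div, ← hn]
    rw [dist_eq_norm, dist_eq_norm, norm_sub_rev, norm_sub_rev b'] at h2
    rw [h2]
  have hc' : c' = (b' - a') * v + a' := by rw [hv]; field_simp; ring
  rcases re_im u v huv1 huv2 with h | h
  · have hw : (b' - a') / (b - a) ≠ 0 := div_ne_zero hba' hba
    refine ⟨dirP ((b' - a') / (b - a)) (a' - (b' - a') / (b - a) * a) hw, Or.inl ⟨_, _, ?_, fun z => rfl⟩,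
      ?_, ?_, ?_⟩
    · rw [norm_div, ← hn, div_self hnpos]
    · rw [dirP_apply]; ring
    · rw [dirP_apply]; field_simp; ring
    · rw [dirP_apply, hc', ← h, hu]; field_simp; ring
  · have hcb : conj (b - a) ≠ 0 := by
      intro h0; apply hba
      have := congrArg conj h0
      rwa [conj_conj, map_zero] at this
    have hw : (b' - a') / conj (b - a) ≠ 0 := div_ne_zero hba' hcb
    refine ⟨oppP ((b' - a') / conj (b - a)) (a' - (b' - a') / conj (b - a) * conj a) hw,
      Or.inr ⟨_, _, ?_, fun z => rfl⟩, ?_, ?_, ?_⟩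
    · rw [norm_div, norm_conj, ← hn, div_self hnpos]
    · rw [oppP_apply]; ring
    · rw [oppP_apply]
      have : (b' - a') / conj (b - a) * conj b + (a' - (b' - a') / conj (b - a) * conj a) =
        (b' - a') * ((conj b - conj a) / conj (b - a)) + a' := by ring
      rw [this, ← map_sub, div_self hcb]; ring
    · rw [oppP_apply, hc', ← h, hu, map_div₀]
      have : (b' - a') / conj (b - a) * conj c + (a' - (b' - a') / conj (b - a) * conj a) =
        (b' - a') * ((conj c - conj a) / conj (b - a)) + a' := by ring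
      rw [this, ← map_sub]

end Pool.BK
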