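import Pool.Agent.Work.MP_dc37f8_bk.Interface

/-!
# Block GEO (helper39)
-/

set_option autoImplicit false

namespace Pool.BK.GEO

open Pool.BK

theorem ne0 {w : ℂ} (h : ‖w‖ = 1) : w ≠ 0 := by
  intro h0
  rw [h0, norm_zero] at h
  exact zero_ne_one h

theorem dir_mul (f g : Gp) (hf : IsDir f) (hg : IsDir g) : IsDir (f * g) := by
  obtain ⟨w, t, hw, hf⟩ := hf
  obtain ⟨w', t', hw', hg⟩ := hg
  refine ⟨w * w', w * t' + t, by rw [norm_mul, hw, hw', one_mul], fun z => ?_⟩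
  rw [Equiv.Perm.mul_apply, hg, hf]
  ring

theorem opp_mul (f g : Gp) (hf : IsOpp f) (hg : IsOpp g) : IsDir (f * g) := by
  obtain ⟨w, t, hw, hf⟩ := hf
  obtain ⟨w', t', hw', hg⟩ := hg
  refine ⟨w * (starRingEnd ℂ) w', w * (starRingEnd ℂ) t' + t, by
    rw [norm_mul, hw, RCLike.norm_conj, hw', one_mul], fun z => ?_⟩
  rw [Equiv.Perm.mul_apply, hg, hf, map_add, map_mul, Complex.conj_conj]
  ring

theorem dir_opp_mul (f g : Gp) (hf : IsDir f) (hg : IsOpp g) : IsOpp (f * g) := by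
  obtain ⟨w, t, hw, hf⟩ := hf
  obtain ⟨w', t', hw', hg⟩ := hg
  refine ⟨w * w', w * t' + t, by rw [norm_mul, hw, hw', one_mul], fun z => ?_⟩
  rw [Equiv.Perm.mul_apply, hg, hf]
  ring

theorem opp_dir_mul (f g : Gp) (hf : IsOpp f) (hg : IsDir g) : IsOpp (f * g) := by
  obtain ⟨w, t, hw, hf⟩ := hf
  obtain ⟨w', t', hw', hg⟩ := hg
  refine ⟨w * (starRingEnd ℂ) w', w * (starRingEnd ℂ) t' + t, by
    rw [norm_mul, hw, RCLike.norm_conj, hw', one_mul], fun z => ?_⟩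
  rw [Equiv.Perm.mul_apply, hg, hf, map_add, map_mul]
  ring

theorem dir_inv (f : Gp) (hf : IsDir f) : IsDir f⁻¹ := by
  obtain ⟨w, t, hw, hf⟩ := hf
  have hw0 := ne0 hw
  refine ⟨w⁻¹, -(w⁻¹ * t), by rw [norm_inv, hw, inv_one], fun z => ?_⟩
  rw [Equiv.Perm.inv_eq_iff_eq, hf]
  field_simp
  ring

theorem opp_inv (f : Gp) (hf : IsOpp f) : IsOpp f⁻¹ := by
  obtain ⟨w, t, hw, hf⟩ := hf
  have hw0 := ne0 hw
  refine ⟨(starRingEnd ℂ) w⁻¹, -(starRingEnd ℂ) (w⁻¹ * t), by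
    rw [RCLike.norm_conj, norm_inv, hw, inv_one], fun z => ?_⟩
  rw [Equiv.Perm.inv_eq_iff_eq, hf, map_add, map_mul, map_neg, Complex.conj_conj,
    Complex.conj_conj, Complex.conj_conj]
  field_simp
  ring

theorem iso_mul (f g : Gp) (hf : IsIso f) (hg : IsIso g) : IsIso (f * g) := by
  rcases hf with hf | hf <;> rcases hg with hg | hg
  · exact Or.inl (dir_mul f g hf hg)
  · exact Or.inr (dir_opp_mul f g hf hg)
  · exact Or.inr (opp_dir_mul f g hf hg)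
  · exact Or.inl (opp_mul f g hf hg)

theorem dir_lin {f : Gp} {w t : ℂ} (hf : ∀ z, f z = w * z + t) : f 1 - f 0 = w := by
  rw [hf, hf]; ring

theorem tr_dir (f : Gp) (hf : IsTr f) : IsDir f ∧ f 1 - f 0 = 1 := by
  obtain ⟨t, ht⟩ := hf
  refine ⟨⟨1, t, norm_one, fun z => by rw [ht, one_mul]⟩, by rw [ht, ht]; ring⟩

theorem dir_tr (f : Gp) (hf : IsDir f) (h : f 1 - f 0 = 1) : IsTr f := by
  obtain ⟨w, t, hw, hf⟩ := hf
  rw [dir_lin hf] at h
  exact ⟨t, fun z => by rw [hf, h, one_mul]⟩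

theorem lin_mul {f g : Gp} {w t w' t' : ℂ} (hf : ∀ z, f z = w * z + t)
    (hg : ∀ z, g z = w' * z + t') : (f * g) 1 - (f * g) 0 = w * w' := by
  rw [Equiv.Perm.mul_apply, Equiv.Perm.mul_apply, hg, hg, hf, hf]; ring

theorem lin_mul' (f g : Gp) (hf : IsDir f) (hg : IsDir g) :
    (f * g) 1 - (f * g) 0 = (f 1 - f 0) * (g 1 - g 0) := by
  obtain ⟨w, t, hw, hf⟩ := hf
  obtain ⟨w', t', hw', hg⟩ := hg
  rw [lin_mul hf hg, dir_lin hf, dir_lin hg]

theorem lin_ne (f : Gp) (hf : IsDir f) : f 1 - f 0 ≠ 0 := by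
  obtain ⟨w, t, hw, hf⟩ := hf
  rw [dir_lin hf]
  exact ne0 hw

theorem lin_inv (f : Gp) (hf : IsDir f) : f⁻¹ 1 - f⁻¹ 0 = (f 1 - f 0)⁻¹ := by
  have h1 := lin_mul' f f⁻¹ hf (dir_inv f hf)
  have h2 : (f * f⁻¹) 1 - (f * f⁻¹) 0 = 1 := by
    rw [mul_inv_cancel, Equiv.Perm.one_apply, Equiv.Perm.one_apply, sub_zero]
  rw [h2] at h1
  exact eq_inv_of_mul_eq_one_right h1.symm

theorem iso_dist (f : Gp) (hf : IsIso f) (z w : ℂ) : dist (f z) (f w) = dist z w := by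
  rcases hf with ⟨u, t, hu, hf⟩ | ⟨u, t, hu, hf⟩
  · rw [hf, hf, dist_eq_norm, dist_eq_norm]
    have : u * z + t - (u * w + t) = u * (z - w) := by ring
    rw [this, norm_mul, hu, one_mul]
  · rw [hf, hf, dist_eq_norm, dist_eq_norm]
    have : u * (starRingEnd ℂ) z + t - (u * (starRingEnd ℂ) w + t) =
        u * (starRingEnd ℂ) (z - w) := by rw [map_sub]; ring
    rw [this, norm_mul, hu, one_mul, RCLike.norm_conj]

end Pool.BK.GEO

namespace Pool.BK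

open GEO

/-- GEO -/
theorem stmt_GEO : Stmt_GEO := by
  refine ⟨dir_mul, opp_mul, dir_inv, opp_inv, iso_mul, ?_, tr_dir, dir_tr, ?_, ?_, ?_, iso_dist, ?_⟩
  · intro f g hf hg h
    apply dir_tr _ (dir_mul f g⁻¹ hf (dir_inv g hg))
    rw [lin_mul' f g⁻¹ hf (dir_inv g hg), lin_inv g hg, h, mul_inv_cancel₀ (lin_ne g hg)]
  · intro f g hf hg
    rw [lin_mul' f g (tr_dir f hf).1 hg, (tr_dir f hf).2, one_mul]
  · intro f g hf hg
    have h1 := dir_mul f g hf hg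
    have h2 := dir_mul _ _ h1 (dir_inv f hf)
    apply dir_tr _ (dir_mul _ _ h2 (dir_inv g hg))
    rw [lin_mul' _ _ h2 (dir_inv g hg), lin_mul' _ _ h1 (dir_inv f hf), lin_mul' f g hf hg,
      lin_inv f hf, lin_inv g hg]
    have h3 := lin_ne f hf
    have h4 := lin_ne g hg
    field_simp
  · intro f hf hn
    obtain ⟨w, t, hw, hfw⟩ := hf
    have hw1 : 1 - w ≠ 0 := by
      intro h
      apply hn
      have : w = 1 := by linear_combination -h
      exact ⟨t, fun z => by rw [hfw, this, one_mul]⟩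
    have huniq : ∀ z, f z = z → z = t / (1 - w) := by
      intro z hz
      rw [hfw] at hz
      rw [eq_div_iff hw1]
      linear_combination -hz
    have hfix : f (t / (1 - w)) = t / (1 - w) := by
      rw [hfw]
      field_simp
      ring
    refine ⟨t / (1 - w), hfix, ?_⟩
    intro g h _ _ hgh
    have h1 : g * f⁻¹ * g⁻¹ = h * f⁻¹ * h⁻¹ := by
      have h2 : f⁻¹ * (f * g * f⁻¹ * g⁻¹) = f⁻¹ * (f * h * f⁻¹ * h⁻¹) := by rw [hgh]
      have e1 : f⁻¹ * (f * g * f⁻¹ * g⁻¹) = g * f⁻¹ * g⁻¹ := by group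
      have e2 : f⁻¹ * (f * h * f⁻¹ * h⁻¹) = h * f⁻¹ * h⁻¹ := by group
      rw [e1, e2] at h2
      exact h2
    have h2 : f * (h⁻¹ * g) = (h⁻¹ * g) * f := by
      have h3 : g * f * g⁻¹ = h * f * h⁻¹ := by
        have h4 := congrArg (fun x => x⁻¹) h1
        simp only [mul_inv_rev, inv_inv] at h4
        rw [mul_assoc, mul_assoc h]
        exact h4
      have e1 : f * (h⁻¹ * g) = h⁻¹ * (h * f * h⁻¹) * g := by group
      rw [e1, ← h3]
      group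
    have h3 : f ((h⁻¹ * g) (t / (1 - w))) = (h⁻¹ * g) (t / (1 - w)) := by
      rw [← Equiv.Perm.mul_apply, h2, Equiv.Perm.mul_apply, hfix]
    have h4 := huniq _ h3
    rw [Equiv.Perm.mul_apply, Equiv.Perm.inv_eq_iff_eq] at h4
    exact h4
  · intro f hf z w
    rcases hf with ⟨u, t, hu, hf⟩ | ⟨u, t, hu, hf⟩
    · rw [hf, hf, hf, hf]; ring
    · rw [hf, hf, hf, hf, map_add, map_zero]; ring

end Pool.BK
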