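import Pool.Agent.Work.MP_dc37f8_bk.Interface

/-!
# MP_dc37f8_co, block POP (helper83): popular quotients
-/

set_option autoImplicit false

open Finset

namespace Pool.BK

namespace POP

open scoped Pointwise

variable {G : Type} [Group G] [DecidableEq G]

/-- the elements `b ∈ A` with `b x ∈ A` -/
def R (A : Finset G) (x : G) : Finset G := A.filter fun b => b * x ∈ A

theorem mem_R {A : Finset G} {x b : G} : b ∈ R A x ↔ b ∈ A ∧ b * x ∈ A := by
  unfold R
  rw [mem_filter]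

theorem R_inv (A : Finset G) (x : G) : (R A x⁻¹).card = (R A x).card := by
  apply Finset.card_bij' (fun c _ => c * x⁻¹) (fun b _ => b * x)
  · intro c hc
    rw [mem_R] at hc ⊢
    refine ⟨hc.2, ?_⟩
    rw [inv_mul_cancel_right]
    exact hc.1
  · intro b hb
    rw [mem_R] at hb ⊢
    refine ⟨hb.2, ?_⟩
    rw [mul_inv_cancel_right]
    exact hb.1
  · intro c _
    rw [inv_mul_cancel_right]
  · intro b _
    rw [mul_inv_cancel_right]

theorem R_le (A : Finset G) (x : G) : (R A x).card ≤ A.card :=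
  card_le_card (filter_subset _ _)

theorem energy (A : Finset G) :
    Finset.mulEnergy A A⁻¹ ≤ ∑ x ∈ A⁻¹ * A, (R A x).card ^ 2 := by
  unfold Finset.mulEnergy
  rw [card_eq_sum_card_fiberwise (f := fun x : (G × G) × (G × G) => x.1.2⁻¹ * x.1.1)
    (t := A⁻¹ * A)]
  · apply sum_le_sum
    intro x _
    rw [sq, ← card_product]
    apply card_le_card_of_injOn (fun z : (G × G) × (G × G) => (z.1.2, z.2.2⁻¹))
    · rintro ⟨⟨a1, a2⟩, ⟨b1, b2⟩⟩ hz
      rw [mem_coe, mem_filter, mem_filter] at hz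
      obtain ⟨⟨hz1, hz2⟩, hz3⟩ := hz
      simp only [mem_product, Finset.mem_inv'] at hz1 hz2 hz3
      rw [mem_coe, mem_product, mem_R, mem_R]
      have e1 : a2 * x = a1 := by rw [← hz3, mul_inv_cancel_left]
      have e2 : b2⁻¹ * x = b1⁻¹ := by
        rw [← hz3]
        have h4 : a1 = a2 * b2 * b1⁻¹ := by rw [← hz2, mul_inv_cancel_right]
        rw [h4]
        group
      refine ⟨⟨hz1.1.2, ?_⟩, ⟨hz1.2.2, ?_⟩⟩
      · show a2 * x ∈ A
        rw [e1]
        exact hz1.1.1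
      · show b2⁻¹ * x ∈ A
        rw [e2]
        exact hz1.2.1
    · rintro ⟨⟨a1, a2⟩, ⟨b1, b2⟩⟩ hz ⟨⟨a1', a2'⟩, ⟨b1', b2'⟩⟩ hz' h
      rw [mem_coe, mem_filter, mem_filter] at hz hz'
      obtain ⟨⟨_, hz2⟩, hz3⟩ := hz
      obtain ⟨⟨_, hz2'⟩, hz3'⟩ := hz'
      simp only [Prod.mk.injEq, inv_inj] at h hz2 hz3 hz2' hz3' ⊢
      obtain ⟨rfl, rfl⟩ := h
      have e1 : a1 = a2 * x := by rw [← hz3, mul_inv_cancel_left]
      have e1' : a1' = a2 * x := by rw [← hz3', mul_inv_cancel_left]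
      have e2 : b1 = a1⁻¹ * (a2 * b2) := by rw [← hz2, inv_mul_cancel_left]
      have e2' : b1' = a1'⁻¹ * (a2 * b2) := by rw [← hz2', inv_mul_cancel_left]
      refine ⟨⟨by rw [e1, e1'], rfl⟩, ?_, rfl⟩
      rw [e2, e2', e1, e1']
  · rintro ⟨⟨a1, a2⟩, ⟨b1, b2⟩⟩ hz
    rw [mem_coe, mem_filter] at hz
    simp only [mem_product] at hz
    exact mul_mem_mul (Finset.inv_mem_inv hz.1.1.2) hz.1.1.1

/-- the number of ways to write `z` as a product of `m + 1` elements of `D` -/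
def Nn (D : Finset G) : ℕ → G → ℕ
  | 0, z => if z ∈ D then 1 else 0
  | m + 1, z => ∑ y ∈ D, Nn D m (y⁻¹ * z)

theorem Nn_total (D : Finset G) (m : ℕ) :
    ∀ Z : Finset G, ∑ z ∈ Z, Nn D m z ≤ D.card ^ (m + 1) := by
  induction m with
  | zero =>
    intro Z
    simp only [Nn]
    rw [← card_filter, zero_add, pow_one]
    apply card_le_card
    intro z hz
    exact (mem_filter.1 hz).2
  | succ m ih =>
    intro Z
    simp only [Nn]
    rw [sum_comm]
    calc ∑ y ∈ D, ∑ z ∈ Z, Nn D m (y⁻¹ * z) ≤ ∑ _y ∈ D, D.card ^ (m + 1) := by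
          apply sum_le_sum
          intro y _
          have h1 : ∑ z ∈ Z, Nn D m (y⁻¹ * z) = ∑ z ∈ Z.image (fun z => y⁻¹ * z), Nn D m z := by
            rw [sum_image]
            intro a _ b _ hab
            exact mul_left_cancel hab
          rw [h1]
          exact ih _
      _ = D.card ^ (m + 1 + 1) := by
          rw [sum_const, smul_eq_mul, pow_succ D.card (m + 1), mul_comm]

theorem Nn_lower (A S : Finset G) (c : ℝ) (hc : 0 ≤ c) (hS : ∀ x ∈ S, c ≤ (R A x).card) (m : ℕ) :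
    ∀ s ∈ S ^ m, ∀ a ∈ A, ∀ b ∈ A, c ^ m ≤ (Nn (A * A⁻¹) m (a * s * b⁻¹) : ℝ) := by
  induction m with
  | zero =>
    intro s hs a ha b hb
    rw [pow_zero, mem_one] at hs
    rw [hs, mul_one]
    simp only [Nn]
    rw [if_pos (mul_mem_mul ha (Finset.inv_mem_inv hb)), pow_zero, Nat.cast_one]
  | succ m ih =>
    intro s hs a ha b hb
    rw [pow_succ', Finset.mem_mul] at hs
    obtain ⟨x, hx, s', hs', rfl⟩ := hs
    simp only [Nn]
    have h1 : ∑ d ∈ R A x, Nn (A * A⁻¹) m (d * x * s' * b⁻¹) ≤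
        ∑ y ∈ A * A⁻¹, Nn (A * A⁻¹) m (y⁻¹ * (a * (x * s') * b⁻¹)) := by
      have h2 : ∑ d ∈ R A x, Nn (A * A⁻¹) m (d * x * s' * b⁻¹) =
          ∑ y ∈ (R A x).image (fun d => a * d⁻¹),
            Nn (A * A⁻¹) m (y⁻¹ * (a * (x * s') * b⁻¹)) := by
        rw [sum_image]
        · apply sum_congr rfl
          intro d _
          have h3 : (a * d⁻¹)⁻¹ * (a * (x * s') * b⁻¹) = d * x * s' * b⁻¹ := by group
          rw [h3]
        · intro d _ d' _ hdd
          exact inv_injective (mul_left_cancel hdd)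
      rw [h2]
      apply sum_le_sum_of_subset
      intro y hy
      rw [mem_image] at hy
      obtain ⟨d, hd, rfl⟩ := hy
      exact mul_mem_mul ha (Finset.inv_mem_inv (mem_R.1 hd).1)
    have h4 : (∑ d ∈ R A x, (Nn (A * A⁻¹) m (d * x * s' * b⁻¹) : ℝ)) ≤
        ((∑ y ∈ A * A⁻¹, Nn (A * A⁻¹) m (y⁻¹ * (a * (x * s') * b⁻¹)) : ℕ) : ℝ) := by
      have h5 : ((∑ d ∈ R A x, Nn (A * A⁻¹) m (d * x * s' * b⁻¹) : ℕ) : ℝ) ≤ _ :=
        Nat.cast_le.2 h1
      rw [Nat.cast_sum] at h5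
      exact h5
    refine le_trans ?_ h4
    calc c ^ (m + 1) = c * c ^ m := by rw [pow_succ']
      _ ≤ (R A x).card * c ^ m := by
          apply mul_le_mul_of_nonneg_right (hS x hx) (pow_nonneg hc m)
      _ = ∑ _d ∈ R A x, c ^ m := by rw [sum_const, nsmul_eq_mul]
      _ ≤ _ := by
          apply sum_le_sum
          intro d hd
          have h6 := ih s' hs' (d * x) (mem_R.1 hd).2 b hb
          exact h6

end POP

open scoped Pointwise

theorem stmt_POP : Stmt_POP := by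
  intro K hK G _ _ A hA hdb
  have hK0 : (0 : ℝ) < K := by linarith
  have hAc : (0 : ℝ) < A.card := by exact_mod_cast hA.card_pos
  obtain ⟨S, hS⟩ : ∃ S : Finset G, S = (A⁻¹ * A).filter
      (fun x => (A.card : ℝ) / (2 * K) ≤ (POP.R A x).card) := ⟨_, rfl⟩
  have hSle : ∀ x ∈ S, (A.card : ℝ) / (2 * K) ≤ (POP.R A x).card := by
    intro x hx
    rw [hS, mem_filter] at hx
    exact hx.2
  have hc0 : 0 ≤ (A.card : ℝ) / (2 * K) := by positivity
  have hcle : (A.card : ℝ) / (2 * K) ≤ A.card := by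
    rw [div_le_iff₀ (by positivity)]
    nlinarith
  -- energy
  have hen : (A.card : ℝ) ^ 3 / K ≤ ∑ x ∈ A⁻¹ * A, ((POP.R A x).card : ℝ) ^ 2 := by
    have h1 := Finset.le_card_mul_mul_mulEnergy A A⁻¹
    rw [Finset.card_inv] at h1
    have h2 : ((A.card : ℝ) ^ 2 * (A.card : ℝ) ^ 2) ≤
        ((A * A⁻¹).card : ℝ) * (Finset.mulEnergy A A⁻¹ : ℝ) := by exact_mod_cast h1
    have h3 : (Finset.mulEnergy A A⁻¹ : ℝ) ≤ ∑ x ∈ A⁻¹ * A, ((POP.R A x).card : ℝ) ^ 2 := by
      exact_mod_cast POP.energy A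
    have h4 : 0 ≤ ∑ x ∈ A⁻¹ * A, ((POP.R A x).card : ℝ) ^ 2 := by positivity
    have h5 : (A.card : ℝ) ^ 2 * (A.card : ℝ) ^ 2 ≤
        (K * A.card) * ∑ x ∈ A⁻¹ * A, ((POP.R A x).card : ℝ) ^ 2 := by
      calc _ ≤ _ := h2
        _ ≤ ((A * A⁻¹).card : ℝ) * ∑ x ∈ A⁻¹ * A, ((POP.R A x).card : ℝ) ^ 2 := by gcongr
        _ ≤ _ := by gcongr
    rw [div_le_iff₀ hK0]
    have h6 : (A.card : ℝ) * (A.card : ℝ) ^ 3 ≤
        (A.card : ℝ) * ((∑ x ∈ A⁻¹ * A, ((POP.R A x).card : ℝ) ^ 2) * K) := by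
      calc (A.card : ℝ) * (A.card : ℝ) ^ 3 = (A.card : ℝ) ^ 2 * (A.card : ℝ) ^ 2 := by ring
        _ ≤ _ := h5
        _ = _ := by ring
    exact le_of_mul_le_mul_left h6 hAc
  -- the total of `r`
  have htot : ∑ x ∈ A⁻¹ * A, ((POP.R A x).card : ℝ) ≤ (A.card : ℝ) ^ 2 := by
    have h1 : ∑ x ∈ A⁻¹ * A, (POP.R A x).card ≤ (A ×ˢ A).card := by
      calc ∑ x ∈ A⁻¹ * A, (POP.R A x).card = ((A⁻¹ * A).sigma (fun x => POP.R A x)).card := by
            rw [card_sigma]
        _ ≤ _ := by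
            apply card_le_card_of_injOn (fun z : (_ : G) × G => (z.2, z.2 * z.1))
            · rintro ⟨x, b⟩ hz
              rw [mem_coe, mem_sigma] at hz
              rw [mem_coe, mem_product]
              exact POP.mem_R.1 hz.2
            · rintro ⟨x, b⟩ _ ⟨x', b'⟩ _ h
              simp only [Prod.mk.injEq] at h
              obtain ⟨rfl, h2⟩ := h
              have h3 := mul_left_cancel h2
              subst h3
              rfl
    rw [card_product] at h1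
    rw [sq]
    exact_mod_cast h1
  -- popular part
  have hpop : (A.card : ℝ) ^ 2 / (2 * K) ≤ ∑ x ∈ S, ((POP.R A x).card : ℝ) := by
    have h1 : ∑ x ∈ A⁻¹ * A, ((POP.R A x).card : ℝ) ^ 2 ≤
        ∑ x ∈ S, (A.card : ℝ) * ((POP.R A x).card : ℝ) +
        ∑ x ∈ A⁻¹ * A, (A.card : ℝ) / (2 * K) * ((POP.R A x).card : ℝ) := by
      rw [hS, sum_filter, ← sum_add_distrib]
      apply sum_le_sum
      intro x _
      have h2 : ((POP.R A x).card : ℝ) ≤ A.card := by exact_mod_cast POP.R_le A x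
      have h3 : (0 : ℝ) ≤ (POP.R A x).card := Nat.cast_nonneg _
      split_ifs with h
      · have h4 : 0 ≤ (A.card : ℝ) / (2 * K) * ((POP.R A x).card : ℝ) := by positivity
        nlinarith
      · push Not at h
        nlinarith
    rw [← mul_sum, ← mul_sum] at h1
    have h2 : (A.card : ℝ) / (2 * K) * ∑ x ∈ A⁻¹ * A, ((POP.R A x).card : ℝ) ≤
        (A.card : ℝ) / (2 * K) * (A.card : ℝ) ^ 2 := by gcongr
    have h3 : (A.card : ℝ) * ((A.card : ℝ) ^ 2 / (2 * K)) ≤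
        (A.card : ℝ) * ∑ x ∈ S, ((POP.R A x).card : ℝ) := by
      have e1 : (A.card : ℝ) * ((A.card : ℝ) ^ 2 / (2 * K)) =
          (A.card : ℝ) ^ 3 / K - (A.card : ℝ) / (2 * K) * (A.card : ℝ) ^ 2 := by
        field_simp
        ring
      rw [e1]
      linarith
    exact le_of_mul_le_mul_left h3 hAc
  -- the double count
  have hdc : ∑ x ∈ S, ((POP.R A x).card : ℝ) =
      ∑ b ∈ A, ((S.filter fun x => b * x ∈ A).card : ℝ) := by
    have h1 : ∀ x ∈ S, ((POP.R A x).card : ℝ) = ∑ b ∈ A, if b * x ∈ A then (1 : ℝ) else 0 := by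
      intro x _
      unfold POP.R
      rw [card_filter]
      push_cast
      rfl
    have h2 : ∀ b ∈ A, ((S.filter fun x => b * x ∈ A).card : ℝ) =
        ∑ x ∈ S, if b * x ∈ A then (1 : ℝ) else 0 := by
      intro b _
      rw [card_filter]
      push_cast
      rfl
    rw [sum_congr rfl h1, sum_congr rfl h2, sum_comm]
  have hex : ∃ a ∈ A, (A.card : ℝ) / (2 * K) ≤ ((S.filter fun x => a * x ∈ A).card : ℝ) := by
    by_contra hcon
    push Not at hcon
    have h1 : ∑ b ∈ A, ((S.filter fun x => b * x ∈ A).card : ℝ) <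
        ∑ _b ∈ A, (A.card : ℝ) / (2 * K) := sum_lt_sum_of_nonempty hA hcon
    rw [← hdc, sum_const, nsmul_eq_mul] at h1
    have e1 : (A.card : ℝ) * ((A.card : ℝ) / (2 * K)) = (A.card : ℝ) ^ 2 / (2 * K) := by ring
    rw [e1] at h1
    linarith
  obtain ⟨a, ha, ha2⟩ := hex
  refine ⟨S, a, ha, ?_, ?_, ?_, ha2, ?_⟩
  · rw [hS, mem_filter]
    obtain ⟨b, hb⟩ := hA
    refine ⟨?_, ?_⟩
    · rw [← inv_mul_cancel b]
      exact mul_mem_mul (Finset.inv_mem_inv hb) hb
    · have h1 : POP.R A 1 = A := by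
        ext c
        rw [POP.mem_R, mul_one, and_self]
      rw [h1]
      exact hcle
  · ext x
    rw [Finset.mem_inv', hS, mem_filter, mem_filter, POP.R_inv]
    have h1 : x⁻¹ ∈ A⁻¹ * A ↔ x ∈ A⁻¹ * A := by
      constructor
      · intro h
        rw [Finset.mem_mul] at h ⊢
        obtain ⟨y, hy, z, hz, h2⟩ := h
        refine ⟨z⁻¹, Finset.inv_mem_inv hz, y⁻¹, by rw [← Finset.mem_inv']; exact hy, ?_⟩
        rw [← mul_inv_rev, h2, inv_inv]
      · intro h
        rw [Finset.mem_mul] at h ⊢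
        obtain ⟨y, hy, z, hz, h2⟩ := h
        refine ⟨z⁻¹, Finset.inv_mem_inv hz, y⁻¹, by rw [← Finset.mem_inv']; exact hy, ?_⟩
        rw [← mul_inv_rev, h2]
    rw [h1]
  · rw [hS]
    exact filter_subset _ _
  · intro m
    have h1 : ((S ^ m).card : ℝ) * ((A.card : ℝ) / (2 * K)) ^ m ≤
        ((A * A⁻¹).card : ℝ) ^ (m + 1) := by
      have h2 : ∑ z ∈ (S ^ m).image (fun s => a * s * a⁻¹), POP.Nn (A * A⁻¹) m z ≤
          (A * A⁻¹).card ^ (m + 1) := POP.Nn_total _ m _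
      rw [sum_image] at h2
      · have h3 : ((∑ s ∈ S ^ m, POP.Nn (A * A⁻¹) m (a * s * a⁻¹) : ℕ) : ℝ) ≤
            (((A * A⁻¹).card ^ (m + 1) : ℕ) : ℝ) := Nat.cast_le.2 h2
        rw [Nat.cast_sum, Nat.cast_pow] at h3
        refine le_trans ?_ h3
        rw [← nsmul_eq_mul, ← sum_const]
        apply sum_le_sum
        intro s hs
        exact POP.Nn_lower A S _ hc0 hSle m s hs a ha a ha
      · intro s _ s' _ h
        exact mul_left_cancel (mul_right_cancel h)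
    have h2 : ((A * A⁻¹).card : ℝ) ^ (m + 1) ≤ (K * A.card) ^ (m + 1) := by gcongr
    have hpos : 0 < ((A.card : ℝ) / (2 * K)) ^ m := by positivity
    have h3 : ((S ^ m).card : ℝ) * ((A.card : ℝ) / (2 * K)) ^ m ≤
        (2 ^ m * K ^ (2 * m + 1) * A.card) * ((A.card : ℝ) / (2 * K)) ^ m := by
      refine (h1.trans h2).trans (le_of_eq ?_)
      rw [div_pow, mul_pow 2 K m]
      have e1 : K ^ (2 * m + 1) = K ^ m * K ^ (m + 1) := by
        rw [← pow_add]
        congr 1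
        omega
      rw [e1]
      field_simp
      rw [mul_pow]
      ring
    exact le_of_mul_le_mul_right h3 hpos

end Pool.BK
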