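import Pool.Agent.Work.MP_dc37f8_bk.Interface

/-!
# Block TWO (helper39)
-/

set_option autoImplicit false

namespace Pool.BK

/-- TWO -/
theorem stmt_TWO : Stmt_TWO := by
  classical
  intro a b c d hab s hs
  have hab' : a - b ≠ 0 := sub_ne_zero.2 hab
  have hconj : (starRingEnd ℂ) a - (starRingEnd ℂ) b ≠ 0 := by
    rw [← map_sub]
    exact (map_ne_zero _).2 hab'
  have h1 : s.card ≤ (Finset.univ : Finset Bool).card := by
    apply Finset.card_le_card_of_injOn (fun g => decide (IsDir g))
    · intro g _
      exact Finset.mem_coe.2 (Finset.mem_univ _)
    · intro g hg h hh hgh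
      obtain ⟨hgi, hga, hgb⟩ := hs g (Finset.mem_coe.1 hg)
      obtain ⟨hhi, hha, hhb⟩ := hs h (Finset.mem_coe.1 hh)
      have hiff : IsDir g ↔ IsDir h := by
        have := hgh
        simpa using this
      by_cases hd : IsDir g
      · obtain ⟨w', t', -, hhw⟩ := hiff.1 hd
        obtain ⟨w, t, -, hgw⟩ := hd
        rw [hgw] at hga hgb
        rw [hhw] at hha hhb
        have e1 : (w - w') * (a - b) = 0 := by linear_combination hga - hgb - hha + hhb
        have e2 : w = w' := by
          rcases mul_eq_zero.1 e1 with h3 | h3
          · exact sub_eq_zero.1 h3
          · exact absurd h3 hab'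
        have e3 : t = t' := by
          rw [e2] at hga
          linear_combination hga - hha
        apply Equiv.ext
        intro z
        rw [hgw, hhw, e2, e3]
      · have hg2 : IsOpp g := by
          rcases hgi with h3 | h3
          · exact absurd h3 hd
          · exact h3
        have hh2 : IsOpp h := by
          rcases hhi with h3 | h3
          · exact absurd (hiff.2 h3) hd
          · exact h3
        obtain ⟨w, t, -, hgw⟩ := hg2
        obtain ⟨w', t', -, hhw⟩ := hh2
        rw [hgw] at hga hgb
        rw [hhw] at hha hhb
        have e1 : (w - w') * ((starRingEnd ℂ) a - (starRingEnd ℂ) b) = 0 := by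
          linear_combination hga - hgb - hha + hhb
        have e2 : w = w' := by
          rcases mul_eq_zero.1 e1 with h3 | h3
          · exact sub_eq_zero.1 h3
          · exact absurd h3 hconj
        have e3 : t = t' := by
          rw [e2] at hga
          linear_combination hga - hha
        apply Equiv.ext
        intro z
        rw [hgw, hhw, e2, e3]
  simpa using h1

end Pool.BK
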