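import Pool.Agent.Work.MP_dc37f8_bk.Interface

/-!
# MP_dc37f8_co: block E3 (third moment from below)
-/

set_option autoImplicit false

open Finset

namespace Pool.BK.E3

theorem two_eq {α : Type*} {p q p' q' : α} (hh : ({p, q} : Multiset α) = {p', q'}) :
    (p = p' ∧ q = q') ∨ (p = q' ∧ q = p') := by
  classical
  have hp : p ∈ ({p', q'} : Multiset α) := by rw [← hh]; simp
  simp only [Multiset.insert_eq_cons, Multiset.mem_cons, Multiset.mem_singleton] at hp
  rcases hp with rfl | rfl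
  · left
    refine ⟨rfl, ?_⟩
    have := (Multiset.cons_inj_right p).1 hh
    simpa using this
  · right
    refine ⟨rfl, ?_⟩
    have h2 : ({p', p} : Multiset α) = {p, p'} := Multiset.pair_comm _ _
    rw [h2] at hh
    have := (Multiset.cons_inj_right p).1 hh
    simpa using this

theorem three_eq {α : Type*} {a b c a' b' c' : α}
    (h : ({a, b, c} : Multiset α) = {a', b', c'}) :
    (a = a' ∧ b = b' ∧ c = c') ∨ (a = a' ∧ b = c' ∧ c = b') ∨
    (a = b' ∧ b = a' ∧ c = c') ∨ (a = b' ∧ b = c' ∧ c = a') ∨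
    (a = c' ∧ b = a' ∧ c = b') ∨ (a = c' ∧ b = b' ∧ c = a') := by
  classical
  have ha : a ∈ ({a', b', c'} : Multiset α) := by rw [← h]; simp
  simp only [Multiset.insert_eq_cons, Multiset.mem_cons, Multiset.mem_singleton] at ha
  rcases ha with rfl | rfl | rfl
  · have h1 := (Multiset.cons_inj_right a).1 h
    rcases two_eq h1 with ⟨h2, h3⟩ | ⟨h2, h3⟩
    · exact Or.inl ⟨rfl, h2, h3⟩
    · exact Or.inr (Or.inl ⟨rfl, h2, h3⟩)
  · have e : ({a', a, c'} : Multiset α) = {a, a', c'} := Multiset.cons_swap _ _ _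
    rw [e] at h
    have h1 := (Multiset.cons_inj_right a).1 h
    rcases two_eq h1 with ⟨h2, h3⟩ | ⟨h2, h3⟩
    · exact Or.inr (Or.inr (Or.inl ⟨rfl, h2, h3⟩))
    · exact Or.inr (Or.inr (Or.inr (Or.inl ⟨rfl, h2, h3⟩)))
  · have e : ({a', b', a} : Multiset α) = {a, a', b'} := by
      have e1 : ({a', b', a} : Multiset α) = {a', a, b'} := by
        have : ({b', a} : Multiset α) = {a, b'} := Multiset.pair_comm _ _
        show a' ::ₘ ({b', a} : Multiset α) = _
        rw [this]
        rfl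
      rw [e1]
      exact Multiset.cons_swap _ _ _
    rw [e] at h
    have h1 := (Multiset.cons_inj_right a).1 h
    rcases two_eq h1 with ⟨h2, h3⟩ | ⟨h2, h3⟩
    · exact Or.inr (Or.inr (Or.inr (Or.inr (Or.inl ⟨rfl, h2, h3⟩))))
    · exact Or.inr (Or.inr (Or.inr (Or.inr (Or.inr ⟨rfl, h2, h3⟩))))

/-- the key of an ordered triple -/
noncomputable def key (z : ℂ × ℂ × ℂ) : ℝ × ℝ × ℝ := (dist z.1 z.2.1, dist z.2.1 z.2.2, dist z.1 z.2.2)

open Classical in
/-- ordered triples of distinct points -/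
noncomputable def T3 (P : Finset ℂ) : Finset (ℂ × ℂ × ℂ) :=
  (P ×ˢ P ×ˢ P).filter (fun z => z.1 ≠ z.2.1 ∧ z.2.1 ≠ z.2.2 ∧ z.1 ≠ z.2.2)

lemma mem_T3 {P : Finset ℂ} {z : ℂ × ℂ × ℂ} : z ∈ T3 P ↔
    (z.1 ∈ P ∧ z.2.1 ∈ P ∧ z.2.2 ∈ P) ∧ z.1 ≠ z.2.1 ∧ z.2.1 ≠ z.2.2 ∧ z.1 ≠ z.2.2 := by
  unfold T3
  rw [Finset.mem_filter, Finset.mem_product, Finset.mem_product]

open Classical in
lemma card_T3 (P : Finset ℂ) :
    ((T3 P).card : ℝ) = (P.card : ℝ) * (P.card - 1) * (P.card - 2) := by
  have h1 : T3 P = P.biUnion (fun a => (P.erase a).biUnion (fun b => ((P.erase a).erase b).image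
      (fun c => (a, b, c)))) := by
    ext z
    rw [mem_T3]
    simp only [Finset.mem_biUnion, Finset.mem_image, Finset.mem_erase]
    constructor
    · rintro ⟨⟨h1, h2, h3⟩, h4, h5, h6⟩
      exact ⟨z.1, h1, z.2.1, ⟨h4.symm, h2⟩, z.2.2, ⟨h5.symm, h6.symm, h3⟩, rfl⟩
    · rintro ⟨a, ha, b, ⟨hb1, hb2⟩, c, ⟨hc1, hc2, hc3⟩, rfl⟩
      exact ⟨⟨ha, hb2, hc3⟩, Ne.symm hb1, Ne.symm hc1, Ne.symm hc2⟩
  have hcard : (T3 P).card = P.card * ((P.card - 1) * (P.card - 1 - 1)) := by
    rw [h1, Finset.card_biUnion]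
    · rw [Finset.sum_const_nat]
      intro a ha
      rw [Finset.card_biUnion]
      · rw [Finset.sum_const_nat (m := P.card - 1 - 1), Finset.card_erase_of_mem ha]
        intro b hb
        rw [Finset.card_image_of_injective _ (fun c d h => by simpa using h),
          Finset.card_erase_of_mem hb, Finset.card_erase_of_mem ha]
      · intro b _ b' _ hbb
        rw [Function.onFun, Finset.disjoint_left]
        intro z hz hz'
        rw [Finset.mem_image] at hz hz'
        obtain ⟨c, _, rfl⟩ := hz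
        obtain ⟨c', _, h⟩ := hz'
        apply hbb
        have := congrArg (fun z : ℂ × ℂ × ℂ => z.2.1) h
        exact this.symm
    · intro a _ a' _ haa
      rw [Function.onFun, Finset.disjoint_left]
      intro z hz hz'
      rw [Finset.mem_biUnion] at hz hz'
      obtain ⟨b, _, hz⟩ := hz
      obtain ⟨b', _, hz'⟩ := hz'
      rw [Finset.mem_image] at hz hz'
      obtain ⟨c, _, rfl⟩ := hz
      obtain ⟨c', _, h⟩ := hz'
      apply haa
      have := congrArg (fun z : ℂ × ℂ × ℂ => z.1) h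
      exact this.symm
  rw [hcard]
  rcases Nat.lt_or_ge P.card 2 with h | h
  · have h3 : P.card = 0 ∨ P.card = 1 := by omega
    rcases h3 with h3 | h3 <;> rw [h3] <;> norm_num
  · push_cast [Nat.cast_sub (show 1 ≤ P.card by omega), Nat.cast_sub (show 1 ≤ P.card - 1 by omega)]
    ring

/-- Cauchy-Schwarz for the fibres of a map -/
lemma cs {α β : Type*} [DecidableEq α] [DecidableEq β] (s : Finset α) (f : α → β) :
    ((s.card : ℝ)) ^ 2 ≤ ((s.image f).card : ℝ) *
      (((s ×ˢ s).filter (fun z => f z.1 = f z.2)).card : ℝ) := by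
  have h1 : (s.card : ℝ) = ∑ b ∈ s.image f, ((s.filter (fun a => f a = b)).card : ℝ) := by
    rw [Finset.card_eq_sum_card_image f s]; push_cast; rfl
  have h2 : (((s ×ˢ s).filter (fun z => f z.1 = f z.2)).card : ℝ) =
      ∑ b ∈ s.image f, ((s.filter (fun a => f a = b)).card : ℝ) ^ 2 := by
    have h3 : ((s ×ˢ s).filter (fun z => f z.1 = f z.2)).card =
        ∑ b ∈ s.image f, (((s ×ˢ s).filter (fun z => f z.1 = f z.2)).filter (fun z => f z.1 = b)).card :=
      Finset.card_eq_sum_card_fiberwise (f := fun z : α × α => f z.1) (by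
        intro z hz
        have hz' := (Finset.mem_filter.mp (Finset.mem_coe.mp hz)).1
        exact Finset.mem_coe.mpr (Finset.mem_image_of_mem f (Finset.mem_product.mp hz').1))
    rw [h3]
    push_cast
    apply Finset.sum_congr rfl
    intro b _
    have h4 : ((s ×ˢ s).filter (fun z => f z.1 = f z.2)).filter (fun z => f z.1 = b) =
        (s.filter (fun a => f a = b)) ×ˢ (s.filter (fun a => f a = b)) := by
      ext z
      simp only [Finset.mem_filter, Finset.mem_product]
      constructor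
      · rintro ⟨⟨⟨h1, h2⟩, h3⟩, h4⟩
        exact ⟨⟨h1, h4⟩, h2, by rw [← h3]; exact h4⟩
      · rintro ⟨⟨h1, h2⟩, h3, h4⟩
        exact ⟨⟨⟨h1, h3⟩, by rw [h2, h4]⟩, h2⟩
    rw [h4, Finset.card_product]
    push_cast; ring
  rw [h1, h2]
  exact sq_sum_le_card_mul_sum_sq

open Classical in
/-- every multiset class has at most six keys -/
lemma card_keys (P : Finset ℂ) : ((T3 P).image key).card ≤ 6 * (TC P).card := by
  apply Finset.card_le_mul_card_image_of_maps_to
    (f := fun w : ℝ × ℝ × ℝ => ({w.1, w.2.1, w.2.2} : Multiset ℝ))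
  · intro w hw
    obtain ⟨z, hz, rfl⟩ := Finset.mem_image.mp hw
    unfold TC
    exact Finset.mem_image.mpr ⟨z, hz, rfl⟩
  · intro m hm
    by_cases hne : (((T3 P).image key).filter
        (fun w : ℝ × ℝ × ℝ => ({w.1, w.2.1, w.2.2} : Multiset ℝ) = m)) = ∅
    · rw [hne]; simp
    · obtain ⟨⟨x, y, z⟩, hw⟩ := Finset.nonempty_iff_ne_empty.mpr hne
      have hw2 := (Finset.mem_filter.mp hw).2
      have hsub : (((T3 P).image key).filter
          (fun w : ℝ × ℝ × ℝ => ({w.1, w.2.1, w.2.2} : Multiset ℝ) = m)) ⊆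
          {(x, y, z), (x, z, y), (y, x, z), (y, z, x), (z, x, y), (z, y, x)} := by
        rintro ⟨a, b, c⟩ hv
        have hv2 := (Finset.mem_filter.mp hv).2
        have h3 : ({a, b, c} : Multiset ℝ) = {x, y, z} := by
          simp only at hv2 hw2
          rw [hv2, hw2]
        simp only [Finset.mem_insert, Finset.mem_singleton, Prod.mk.injEq]
        rcases three_eq h3 with h | h | h | h | h | h
        · exact Or.inl ⟨h.1, h.2.1, h.2.2⟩
        · exact Or.inr (Or.inl ⟨h.1, h.2.1, h.2.2⟩)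
        · exact Or.inr (Or.inr (Or.inl ⟨h.1, h.2.1, h.2.2⟩))
        · exact Or.inr (Or.inr (Or.inr (Or.inl ⟨h.1, h.2.1, h.2.2⟩)))
        · exact Or.inr (Or.inr (Or.inr (Or.inr (Or.inl ⟨h.1, h.2.1, h.2.2⟩))))
        · exact Or.inr (Or.inr (Or.inr (Or.inr (Or.inr ⟨h.1, h.2.1, h.2.2⟩))))
      refine (Finset.card_le_card hsub).trans ?_
      exact Finset.card_le_six

end Pool.BK.E3

namespace Pool.BK

open E3

open Classical in
theorem stmt_E3 (hCON : Stmt_CON) : Stmt_E3 := by
  intro P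
  set E := (T3 P ×ˢ T3 P).filter (fun z => key z.1 = key z.2) with hE
  have hex : ∀ z : (ℂ × ℂ × ℂ) × (ℂ × ℂ × ℂ), ∃ g : Gp, z ∈ E →
      (IsIso g ∧ g z.1.1 = z.2.1 ∧ g z.1.2.1 = z.2.2.1 ∧ g z.1.2.2 = z.2.2.2) := by
    intro z
    by_cases hz : z ∈ E
    · obtain ⟨h1, h2⟩ := Finset.mem_filter.mp hz
      obtain ⟨h3, h4⟩ := Finset.mem_product.mp h1
      have h5 := (mem_T3.mp h3).2.1
      have k1 : dist z.1.1 z.1.2.1 = dist z.2.1 z.2.2.1 := congrArg (fun w : ℝ × ℝ × ℝ => w.1) h2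
      have k2 : dist z.1.2.1 z.1.2.2 = dist z.2.2.1 z.2.2.2 :=
        congrArg (fun w : ℝ × ℝ × ℝ => w.2.1) h2
      have k3 : dist z.1.1 z.1.2.2 = dist z.2.1 z.2.2.2 :=
        congrArg (fun w : ℝ × ℝ × ℝ => w.2.2) h2
      obtain ⟨g, hg⟩ := hCON _ _ _ _ _ _ h5 k1 k2 k3
      exact ⟨g, fun _ => hg⟩
    · exact ⟨1, fun h => absurd h hz⟩
  choose φ hφ using hex
  refine ⟨E.image φ, ?_, ?_⟩
  · intro g hg
    obtain ⟨z, hz, rfl⟩ := Finset.mem_image.mp hg
    exact (hφ z hz).1
  · rw [← card_T3]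
    have h1 := cs (T3 P) key
    have h2 : ((((T3 P).image key).card : ℕ) : ℝ) ≤ 6 * (TC P).card := by
      exact_mod_cast card_keys P
    have h3 : (E.card : ℝ) ≤ ∑ g ∈ E.image φ, ((st P g).card : ℝ) ^ 3 := by
      rw [Finset.card_eq_sum_card_image φ E]
      push_cast
      apply Finset.sum_le_sum
      intro g hg
      have h4 : (E.filter (fun z => φ z = g)).card ≤ ((st P g) ×ˢ (st P g) ×ˢ (st P g)).card := by
        apply Finset.card_le_card_of_injOn (fun z => z.1)
        · intro z hz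
          obtain ⟨hz1, hz2⟩ := Finset.mem_filter.mp (Finset.mem_coe.mp hz)
          obtain ⟨_, k1, k2, k3⟩ := hφ z hz1
          rw [hz2] at k1 k2 k3
          obtain ⟨h1, h2⟩ := Finset.mem_filter.mp hz1
          obtain ⟨h3, h4⟩ := Finset.mem_product.mp h1
          obtain ⟨⟨a1, a2, a3⟩, _⟩ := mem_T3.mp h3
          obtain ⟨⟨b1, b2, b3⟩, _⟩ := mem_T3.mp h4
          apply Finset.mem_coe.mpr
          rw [Finset.mem_product, Finset.mem_product]
          unfold st
          refine ⟨Finset.mem_filter.mpr ⟨a1, ?_⟩, Finset.mem_filter.mpr ⟨a2, ?_⟩,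
            Finset.mem_filter.mpr ⟨a3, ?_⟩⟩
          · rw [k1]; exact b1
          · rw [k2]; exact b2
          · rw [k3]; exact b3
        · intro z hz w hw hzw
          obtain ⟨hz1, hz2⟩ := Finset.mem_filter.mp (Finset.mem_coe.mp hz)
          obtain ⟨hw1, hw2⟩ := Finset.mem_filter.mp (Finset.mem_coe.mp hw)
          obtain ⟨_, k1, k2, k3⟩ := hφ z hz1
          obtain ⟨_, l1, l2, l3⟩ := hφ w hw1
          rw [hz2] at k1 k2 k3
          rw [hw2] at l1 l2 l3
          have hzw' : z.1 = w.1 := hzw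
          rw [hzw'] at k1 k2 k3
          apply Prod.ext hzw'
          apply Prod.ext
          · rw [← k1, ← l1]
          · apply Prod.ext
            · rw [← k2, ← l2]
            · rw [← k3, ← l3]
      rw [Finset.card_product, Finset.card_product] at h4
      have h5 : (((E.filter (fun z => φ z = g)).card : ℕ) : ℝ) ≤
          (((st P g).card * ((st P g).card * (st P g).card) : ℕ) : ℝ) := by exact_mod_cast h4
      refine h5.trans (le_of_eq ?_)
      push_cast; ring
    calc ((T3 P).card : ℝ) ^ 2 ≤ (((T3 P).image key).card : ℝ) * (E.card : ℝ) := h1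
      _ ≤ (6 * (TC P).card) * ∑ g ∈ E.image φ, ((st P g).card : ℝ) ^ 3 := by
          apply mul_le_mul h2 h3 (by positivity) (by positivity)

end Pool.BK
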