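import Pool.Agent.Work.MP_dc37f8_bk.Interface

/-! UP: the third moment over isometries with few pairs of centres. -/

set_option autoImplicit false

open Finset

namespace Pool.BK

namespace UP

open Classical in
/-- number of points of `P` on a circle -/
noncomputable def nc (P : Finset ℂ) (c : ℂ) (ρ : ℝ) : ℕ := (P.filter (fun p => dist p c = ρ)).card

open Classical in
/-- the points on rich circles about `c` -/
noncomputable def R (P : Finset ℂ) (b : ℝ) (c : ℂ) : Finset ℂ :=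
  P.filter (fun p => p ≠ c ∧ b ≤ (nc P c (dist p c) : ℝ))

theorem nc_le (P : Finset ℂ) (c : ℂ) (ρ : ℝ) : nc P c ρ ≤ P.card := card_filter_le _ _

theorem R_sub (P : Finset ℂ) (b : ℝ) (c : ℂ) : R P b c ⊆ P := filter_subset _ _

theorem R_le (P : Finset ℂ) (b : ℝ) (c : ℂ) : (R P b c).card ≤ P.card := card_filter_le _ _

/-- two circles with different centres meet in at most two points -/
theorem circ_inter (P : Finset ℂ) {c d : ℂ} (h : c ≠ d) (ρ σ : ℝ) :
    (P.filter (fun p => dist p c = ρ ∧ dist p d = σ)).card ≤ 2 := by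
  classical
  by_contra hcon
  push Not at hcon
  obtain ⟨a, ha, b, hb, e, he, hab, hae, hbe⟩ := two_lt_card.1 hcon
  obtain ⟨_, a1, a2⟩ := mem_filter.1 ha
  obtain ⟨_, b1, b2⟩ := mem_filter.1 hb
  obtain ⟨_, e1, e2⟩ := mem_filter.1 he
  rcases EuclideanGeometry.eq_of_dist_eq_of_dist_eq_of_finrank_eq_two
    Complex.finrank_real_complex h hab a1 b1 e1 a2 b2 e2 with h1 | h1
  · exact hae h1.symm
  · exact hbe h1.symm

/-- a centre has few rich circles -/
theorem radii_le (P : Finset ℂ) {b : ℝ} (c : ℂ) :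
    (((R P b c).image (fun p => dist p c)).card : ℝ) * b ≤ P.card := by
  classical
  have h1 : ((R P b c).card : ℝ) =
      ∑ ρ ∈ (R P b c).image (fun p => dist p c),
        (((R P b c).filter (fun p => dist p c = ρ)).card : ℝ) := by
    have := card_eq_sum_card_image (fun p => dist p c) (R P b c)
    exact_mod_cast this
  have h2 : ∀ ρ ∈ (R P b c).image (fun p => dist p c),
      b ≤ (((R P b c).filter (fun p => dist p c = ρ)).card : ℝ) := by
    intro ρ hρ
    obtain ⟨p, hp, rfl⟩ := mem_image.1 hρ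
    obtain ⟨hpP, hpc, hpb⟩ := mem_filter.1 hp
    refine hpb.trans ?_
    have h3 : P.filter (fun q => dist q c = dist p c) ⊆
        (R P b c).filter (fun q => dist q c = dist p c) := by
      intro q hq
      obtain ⟨hqP, hq⟩ := mem_filter.1 hq
      refine mem_filter.2 ⟨mem_filter.2 ⟨hqP, ?_, ?_⟩, hq⟩
      · rintro rfl
        rw [dist_self] at hq
        exact hpc (dist_eq_zero.1 hq.symm)
      · rw [hq]; exact hpb
    exact_mod_cast card_le_card h3
  have h4 : (((R P b c).image (fun p => dist p c)).card : ℝ) * b ≤ (R P b c).card := by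
    rw [h1, ← nsmul_eq_mul, ← sum_const]
    exact sum_le_sum h2
  exact h4.trans (by exact_mod_cast R_le P b c)

/-- rich circles about different centres have a small overlap -/
theorem overlap (P : Finset ℂ) {b : ℝ} (hb : 0 < b) {c d : ℂ} (h : c ≠ d) :
    (((R P b c) ∩ (R P b d)).card : ℝ) ≤ 2 * ((P.card : ℝ) / b) ^ 2 := by
  classical
  set I := (R P b c).image (fun p => dist p c) with hI
  set J := (R P b d).image (fun p => dist p d) with hJ
  have h1 : ((R P b c) ∩ (R P b d)).card ≤ 2 * (I ×ˢ J).card := by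
    have hmap : ∀ p ∈ (R P b c) ∩ (R P b d), ((dist p c, dist p d) : ℝ × ℝ) ∈ I ×ˢ J := by
      intro p hp
      obtain ⟨h1, h2⟩ := mem_inter.1 hp
      exact mem_product.2 ⟨mem_image_of_mem _ h1, mem_image_of_mem _ h2⟩
    have := card_le_mul_card_image_of_maps_to hmap 2 (by
      intro z _
      refine le_trans (card_le_card ?_) (circ_inter P h z.1 z.2)
      intro p hp
      obtain ⟨h1, h2⟩ := mem_filter.1 hp
      refine mem_filter.2 ⟨R_sub _ _ _ (mem_inter.1 h1).1, ?_, ?_⟩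
      · exact congrArg Prod.fst h2
      · exact congrArg Prod.snd h2)
    exact this
  have hIc : (I.card : ℝ) ≤ (P.card : ℝ) / b := by
    rw [le_div_iff₀ hb]; exact radii_le P c
  have hJc : (J.card : ℝ) ≤ (P.card : ℝ) / b := by
    rw [le_div_iff₀ hb]; exact radii_le P d
  calc (((R P b c) ∩ (R P b d)).card : ℝ) ≤ 2 * ((I.card : ℝ) * J.card) := by
        have : (((R P b c) ∩ (R P b d)).card : ℝ) ≤ ((2 * (I ×ˢ J).card : ℕ) : ℝ) := by
          exact_mod_cast h1
        rw [card_product] at this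
        push_cast at this
        exact this
    _ ≤ 2 * (((P.card : ℝ) / b) * ((P.card : ℝ) / b)) := by
        gcongr
    _ = 2 * ((P.card : ℝ) / b) ^ 2 := by ring

/-- the sum of the sizes over the centres -/
theorem sum_R (P : Finset ℂ) {b : ℝ} (hb : 0 < b) (C : Finset ℂ) :
    ∑ c ∈ C, ((R P b c).card : ℝ) ≤ P.card + (C.card : ℝ) ^ 2 * (2 * ((P.card : ℝ) / b) ^ 2) := by
  classical
  set m : ℂ → ℕ := fun p => (C.filter (fun c => p ∈ R P b c)).card with hm
  have h1 : ∑ c ∈ C, (R P b c).card = ∑ p ∈ P, m p := by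
    have h := sum_card_bipartiteAbove_eq_sum_card_bipartiteBelow (s := C) (t := P)
      (fun c p => p ∈ R P b c)
    have h2 : ∀ c ∈ C, (R P b c).card = (bipartiteAbove (fun c p => p ∈ R P b c) P c).card := by
      intro c _
      congr 1
      ext p
      simp only [bipartiteAbove, mem_filter]
      exact ⟨fun hp => ⟨R_sub _ _ _ hp, hp⟩, fun hp => hp.2⟩
    rw [sum_congr rfl h2, h]
    rfl
  have h2 : ∀ p, m p ≤ 1 + ((C.offDiag).filter (fun z => p ∈ R P b z.1 ∩ R P b z.2)).card := by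
    intro p
    have h3 : ((C.offDiag).filter (fun z => p ∈ R P b z.1 ∩ R P b z.2)) =
        (C.filter (fun c => p ∈ R P b c)).offDiag := by
      ext z
      simp only [mem_filter, mem_offDiag, mem_inter]
      tauto
    rw [h3, offDiag_card]
    show m p ≤ 1 + (m p * m p - m p)
    rcases Nat.eq_zero_or_pos (m p) with h | h
    · omega
    · have : m p * 1 ≤ m p * m p := Nat.mul_le_mul_left _ h
      rcases Nat.lt_or_ge (m p) 2 with h4 | h4
      · omega
      · have : m p * 2 ≤ m p * m p := Nat.mul_le_mul_left _ h4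
        omega
  have h4 : ∑ p ∈ P, ((C.offDiag).filter (fun z => p ∈ R P b z.1 ∩ R P b z.2)).card =
      ∑ z ∈ C.offDiag, (R P b z.1 ∩ R P b z.2).card := by
    have h := sum_card_bipartiteAbove_eq_sum_card_bipartiteBelow (s := P) (t := C.offDiag)
      (fun p z => p ∈ R P b z.1 ∩ R P b z.2)
    refine h.trans ?_
    refine sum_congr rfl fun z _ => ?_
    congr 1
    ext p
    simp only [bipartiteBelow, mem_filter]
    exact ⟨fun hp => hp.2, fun hp => ⟨R_sub _ _ _ (mem_inter.1 hp).1, hp⟩⟩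
  have h5 : ∑ c ∈ C, (R P b c).card ≤ P.card + ∑ z ∈ C.offDiag, (R P b z.1 ∩ R P b z.2).card := by
    rw [h1, ← h4]
    calc ∑ p ∈ P, m p ≤ ∑ p ∈ P,
          (1 + ((C.offDiag).filter (fun z => p ∈ R P b z.1 ∩ R P b z.2)).card) :=
          sum_le_sum fun p _ => h2 p
      _ = _ := by rw [sum_add_distrib]; simp
  have h6 : (∑ z ∈ C.offDiag, ((R P b z.1 ∩ R P b z.2).card : ℝ)) ≤
      (C.card : ℝ) ^ 2 * (2 * ((P.card : ℝ) / b) ^ 2) := by
    calc (∑ z ∈ C.offDiag, ((R P b z.1 ∩ R P b z.2).card : ℝ))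
        ≤ ∑ _z ∈ C.offDiag, 2 * ((P.card : ℝ) / b) ^ 2 :=
          sum_le_sum fun z hz => overlap P hb (mem_offDiag.1 hz).2.2
      _ = (C.offDiag.card : ℝ) * (2 * ((P.card : ℝ) / b) ^ 2) := by
          rw [sum_const, nsmul_eq_mul]
      _ ≤ _ := by
          apply mul_le_mul_of_nonneg_right _ (by positivity)
          have : C.offDiag.card ≤ C.card * C.card := by
            rw [offDiag_card]; exact Nat.sub_le _ _
          calc (C.offDiag.card : ℝ) ≤ ((C.card * C.card : ℕ) : ℝ) := by exact_mod_cast this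
            _ = (C.card : ℝ) ^ 2 := by push_cast; ring
  have h7 : (∑ c ∈ C, ((R P b c).card : ℝ)) ≤
      P.card + ∑ z ∈ C.offDiag, ((R P b z.1 ∩ R P b z.2).card : ℝ) := by exact_mod_cast h5
  linarith

/-- each pair of points is hit by at most two isometries with the given centres -/
theorem inc (hTWO : Stmt_TWO) {c c' : ℂ} {H : Finset Gp} (hH : ∀ g ∈ H, IsIso g ∧ g c = c')
    (P : Finset ℂ) (S : Finset (ℂ × ℂ)) (hS : ∀ s ∈ S, s.1 ≠ c) :
    ∑ g ∈ H, (P.filter (fun p => (p, g p) ∈ S)).card ≤ 2 * S.card := by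
  classical
  have h1 : ∑ g ∈ H, (P.filter (fun p => (p, g p) ∈ S)).card =
      ((H ×ˢ P).filter (fun z => (z.2, z.1 z.2) ∈ S)).card := by
    rw [card_filter, sum_product]
    refine sum_congr rfl fun g _ => ?_
    rw [card_filter]
  rw [h1]
  refine card_le_mul_card_image_of_maps_to (f := fun z : Gp × ℂ => (z.2, z.1 z.2))
    (fun z hz => (mem_filter.1 hz).2) 2 ?_
  rintro ⟨p, q⟩ hs
  have hpc : p ≠ c := hS _ hs
  refine le_trans ?_ (hTWO c p c' q hpc.symm (H.filter (fun g => g p = q)) ?_)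
  · refine card_le_card_of_injOn Prod.fst ?_ ?_
    · rintro ⟨g, p'⟩ hz
      have hz := mem_filter.1 (mem_coe.1 hz)
      obtain ⟨hz1, hz2⟩ := hz
      have hz3 := Prod.mk.inj hz2
      obtain ⟨h3, h4⟩ := hz3
      dsimp only at h3 h4
      subst h3
      refine mem_coe.2 (mem_filter.2 ⟨(mem_product.1 (mem_filter.1 hz1).1).1, h4⟩)
    · rintro ⟨g, p'⟩ hz ⟨g₂, p₂⟩ hz' heq
      have h1 := (Prod.mk.inj (mem_filter.1 (mem_coe.1 hz)).2).1
      have h2 := (Prod.mk.inj (mem_filter.1 (mem_coe.1 hz')).2).1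
      dsimp only at h1 h2 heq
      rw [h1, h2, heq]
  · intro g hg
    obtain ⟨hg1, hg2⟩ := mem_filter.1 hg
    exact ⟨(hH g hg1).1, (hH g hg1).2, hg2⟩

open Classical in
/-- pairs of points with the same distance from the centres -/
noncomputable def PR (A B : Finset ℂ) (c c' : ℂ) : Finset (ℂ × ℂ) :=
  (A ×ˢ B).filter (fun s => s.1 ≠ c ∧ dist s.1 c = dist s.2 c')

theorem PR_le_left {P A B : Finset ℂ} {c c' : ℂ} (hB : B ⊆ P) {m : ℝ} (hm0 : 0 ≤ m)
    (hm : ∀ p ∈ A, p ≠ c → (nc P c' (dist p c) : ℝ) ≤ m) :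
    ((PR A B c c').card : ℝ) ≤ m * A.card := by
  classical
  have h1 : (PR A B c c').card = ∑ p ∈ A, (B.filter (fun q => p ≠ c ∧ dist p c = dist q c')).card := by
    rw [PR, card_filter, sum_product]
    refine sum_congr rfl fun p _ => ?_
    rw [card_filter]
  have h2 : ∀ p ∈ A, ((B.filter (fun q => p ≠ c ∧ dist p c = dist q c')).card : ℝ) ≤ m := by
    intro p hp
    by_cases hpc : p ≠ c
    · refine le_trans ?_ (hm p hp hpc)
      have : (B.filter (fun q => p ≠ c ∧ dist p c = dist q c')).card ≤ nc P c' (dist p c) := by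
        refine card_le_card ?_
        intro q hq
        obtain ⟨hq1, _, hq2⟩ := mem_filter.1 hq
        exact mem_filter.2 ⟨hB hq1, hq2.symm⟩
      exact_mod_cast this
    · have : B.filter (fun q => p ≠ c ∧ dist p c = dist q c') = ∅ := by
        refine filter_eq_empty_iff.2 fun q _ hq => hpc hq.1
      rw [this]; simpa using hm0
  rw [h1]
  push_cast
  calc ∑ p ∈ A, ((B.filter (fun q => p ≠ c ∧ dist p c = dist q c')).card : ℝ)
      ≤ ∑ _p ∈ A, m := sum_le_sum h2
    _ = m * A.card := by rw [sum_const, nsmul_eq_mul, mul_comm]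

theorem PR_le_right {P A B : Finset ℂ} {c c' : ℂ} (hA : A ⊆ P) {m : ℝ}
    (hm : ∀ q ∈ B, (nc P c (dist q c') : ℝ) ≤ m) :
    ((PR A B c c').card : ℝ) ≤ m * B.card := by
  classical
  have h1 : (PR A B c c').card = ∑ q ∈ B, (A.filter (fun p => p ≠ c ∧ dist p c = dist q c')).card := by
    rw [PR, card_filter, sum_product_right]
    refine sum_congr rfl fun p _ => ?_
    rw [card_filter]
  have h2 : ∀ q ∈ B, ((A.filter (fun p => p ≠ c ∧ dist p c = dist q c')).card : ℝ) ≤ m := by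
    intro q hq
    refine le_trans ?_ (hm q hq)
    have : (A.filter (fun p => p ≠ c ∧ dist p c = dist q c')).card ≤ nc P c (dist q c') := by
      refine card_le_card ?_
      intro p hp
      obtain ⟨hp1, _, hp2⟩ := mem_filter.1 hp
      exact mem_filter.2 ⟨hA hp1, hp2⟩
    exact_mod_cast this
  rw [h1]
  push_cast
  calc ∑ q ∈ B, ((A.filter (fun p => p ≠ c ∧ dist p c = dist q c')).card : ℝ)
      ≤ ∑ _q ∈ B, m := sum_le_sum h2
    _ = m * B.card := by rw [sum_const, nsmul_eq_mul, mul_comm]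

open Classical in
noncomputable def A1 (P : Finset ℂ) (b : ℝ) (c c' : ℂ) : Finset ℂ :=
  P.filter (fun p => (nc P c' (dist p c) : ℝ) < b)

theorem A1_sub (P : Finset ℂ) (b : ℝ) (c c' : ℂ) : A1 P b c c' ⊆ P := filter_subset _ _

/-- the points that stay in `P` -/
theorem st_sub (hiso : ∀ f : Gp, IsIso f → ∀ z w : ℂ, dist (f z) (f w) = dist z w)
    {P : Finset ℂ} {b : ℝ} {c c' : ℂ} {g : Gp} (hg : IsIso g) (hgc : g c = c') {p : ℂ}
    (hp : p ∈ st P g) :
    p = c ∨ (p, g p) ∈ PR (R P b c) (R P b c') c c' ∨ (p, g p) ∈ PR (A1 P b c c') P c c' ∨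
      (p, g p) ∈ PR P (A1 P b c' c) c c' := by
  classical
  by_cases hpc : p = c
  · exact Or.inl hpc
  right
  obtain ⟨hpP, hgp⟩ := mem_filter.1 hp
  have hd : dist p c = dist (g p) c' := by rw [← hgc, hiso g hg]
  have hne : g p ≠ c' := by
    rw [← hgc]
    exact fun h => hpc (g.injective h)
  by_cases h1 : (nc P c' (dist p c) : ℝ) < b
  · right; left
    exact mem_filter.2 ⟨mem_product.2 ⟨mem_filter.2 ⟨hpP, h1⟩, hgp⟩, hpc, hd⟩
  by_cases h2 : (nc P c (dist p c) : ℝ) < b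
  · right; right
    refine mem_filter.2 ⟨mem_product.2 ⟨hpP, mem_filter.2 ⟨hgp, ?_⟩⟩, hpc, hd⟩
    show (nc P c (dist (g p) c') : ℝ) < b
    rw [← hd]; exact h2
  left
  push Not at h1 h2
  refine mem_filter.2 ⟨mem_product.2 ⟨mem_filter.2 ⟨hpP, hpc, h2⟩, mem_filter.2 ⟨hgp, hne, ?_⟩⟩, hpc, hd⟩
  show b ≤ (nc P c' (dist (g p) c') : ℝ)
  rw [← hd]; exact h1

/-- the number of rich isometries with given centres -/
theorem card_H (hTWO : Stmt_TWO) {c c' : ℂ} {H : Finset Gp} (hH : ∀ g ∈ H, IsIso g ∧ g c = c')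
    {P : Finset ℂ} {δ : ℝ} (hδ : 0 < δ) (hr : ∀ g ∈ H, δ * P.card ≤ (st P g).card)
    (hn : 2 ≤ δ * P.card) : (H.card : ℝ) ≤ 4 * P.card / δ := by
  classical
  set S : Finset (ℂ × ℂ) := (P ×ˢ P).filter (fun s => s.1 ≠ c) with hS
  have h1 := inc hTWO hH P S (fun s hs => (mem_filter.1 hs).2)
  have h2 : ∀ g ∈ H, (st P g).card ≤ (P.filter (fun p => (p, g p) ∈ S)).card + 1 := by
    intro g _
    have : st P g ⊆ insert c (P.filter (fun p => (p, g p) ∈ S)) := by
      intro p hp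
      obtain ⟨hpP, hgp⟩ := mem_filter.1 hp
      by_cases hpc : p = c
      · exact mem_insert.2 (Or.inl hpc)
      · exact mem_insert.2 (Or.inr (mem_filter.2 ⟨hpP, mem_filter.2
          ⟨mem_product.2 ⟨hpP, hgp⟩, hpc⟩⟩))
    exact (card_le_card this).trans (card_insert_le _ _)
  have h3 : (S.card : ℝ) ≤ (P.card : ℝ) ^ 2 := by
    have : S.card ≤ P.card * P.card := by
      rw [← card_product]; exact card_filter_le _ _
    calc (S.card : ℝ) ≤ ((P.card * P.card : ℕ) : ℝ) := by exact_mod_cast this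
      _ = _ := by push_cast; ring
  have h4 : (∑ g ∈ H, ((P.filter (fun p => (p, g p) ∈ S)).card : ℝ)) ≤ 2 * S.card := by
    exact_mod_cast h1
  have h5 : (H.card : ℝ) * (δ * P.card / 2) ≤
      ∑ g ∈ H, ((P.filter (fun p => (p, g p) ∈ S)).card : ℝ) := by
    rw [← nsmul_eq_mul, ← sum_const]
    refine sum_le_sum fun g hg => ?_
    have h6 : ((st P g).card : ℝ) ≤ (P.filter (fun p => (p, g p) ∈ S)).card + 1 := by
      exact_mod_cast h2 g hg
    have := hr g hg
    linarith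
  have hnpos : 0 < (P.card : ℝ) := by
    by_contra hcon
    push Not at hcon
    nlinarith
  rw [le_div_iff₀ hδ]
  have h6 : (H.card : ℝ) * (δ * P.card / 2) ≤ 2 * (P.card : ℝ) ^ 2 := by linarith
  have h7 : ((H.card : ℝ) * δ) * P.card ≤ (4 * P.card) * P.card := by nlinarith
  exact le_of_mul_le_mul_right h7 hnpos

set_option maxHeartbeats 4000000 in
/-- third moment for one pair of centres -/
theorem one_pair (hTWO : Stmt_TWO)
    (hiso : ∀ f : Gp, IsIso f → ∀ z w : ℂ, dist (f z) (f w) = dist z w)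
    {P : Finset ℂ} {x b : ℝ} (hx0 : 0 ≤ x) (hb : 0 < b)
    (hx : ∀ (c : ℂ) (ρ : ℝ), 0 < ρ → (nc P c ρ : ℝ) ≤ x * P.card)
    {c c' : ℂ} {H : Finset Gp} (hH : ∀ g ∈ H, IsIso g ∧ g c = c') :
    ∑ g ∈ H, ((st P g).card : ℝ) ^ 3 ≤
      2 * x * P.card * (((R P b c).card : ℝ) ^ 2 * (R P b c').card) +
        3 * (P.card : ℝ) ^ 2 * (4 * b * P.card + H.card) := by
  classical
  set n : ℝ := (P.card : ℝ) with hn
  have hn0 : 0 ≤ n := by positivity
  set S0 := PR (R P b c) (R P b c') c c' with hS0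
  set S1 := PR (A1 P b c c') P c c' with hS1
  set S2 := PR P (A1 P b c' c) c c' with hS2
  set a : Gp → ℝ := fun g => ((P.filter (fun p => (p, g p) ∈ S0)).card : ℝ) with ha
  set b1 : Gp → ℝ := fun g => ((P.filter (fun p => (p, g p) ∈ S1)).card : ℝ) with hb1
  set b2 : Gp → ℝ := fun g => ((P.filter (fun p => (p, g p) ∈ S2)).card : ℝ) with hb2
  set u : ℝ := ((R P b c).card : ℝ) with hu
  set v : ℝ := ((R P b c').card : ℝ) with hv
  have hPR : ∀ {A B : Finset ℂ} {s : ℂ × ℂ}, s ∈ PR A B c c' → s.1 ≠ c :=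
    fun hs => (mem_filter.1 hs).2.1
  have e0 : ∑ g ∈ H, a g ≤ 2 * (S0.card : ℝ) := by
    have := inc hTWO hH P S0 (fun s hs => hPR hs)
    show ∑ g ∈ H, ((P.filter (fun p => (p, g p) ∈ S0)).card : ℝ) ≤ 2 * (S0.card : ℝ)
    exact_mod_cast this
  have e1 : ∑ g ∈ H, b1 g ≤ 2 * (S1.card : ℝ) := by
    have := inc hTWO hH P S1 (fun s hs => hPR hs)
    show ∑ g ∈ H, ((P.filter (fun p => (p, g p) ∈ S1)).card : ℝ) ≤ 2 * (S1.card : ℝ)
    exact_mod_cast this
  have e2 : ∑ g ∈ H, b2 g ≤ 2 * (S2.card : ℝ) := by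
    have := inc hTWO hH P S2 (fun s hs => hPR hs)
    show ∑ g ∈ H, ((P.filter (fun p => (p, g p) ∈ S2)).card : ℝ) ≤ 2 * (S2.card : ℝ)
    exact_mod_cast this
  have s0l : (S0.card : ℝ) ≤ x * n * u := by
    refine PR_le_left (R_sub P b c') (by positivity) ?_
    intro p _ hpc
    exact hx c' _ (dist_pos.2 hpc)
  have s0r : (S0.card : ℝ) ≤ x * n * v := by
    refine PR_le_right (R_sub P b c) ?_
    intro q hq
    obtain ⟨_, hqc, _⟩ := mem_filter.1 hq
    exact hx c _ (dist_pos.2 hqc)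
  have s1 : (S1.card : ℝ) ≤ b * n := by
    refine (PR_le_left (subset_refl P) hb.le ?_).trans ?_
    · intro p hp _
      exact (mem_filter.1 hp).2.le
    · have : ((A1 P b c c').card : ℝ) ≤ (P.card : ℝ) := by
        exact_mod_cast card_le_card (A1_sub P b c c')
      exact mul_le_mul_of_nonneg_left this hb.le
  have s2 : (S2.card : ℝ) ≤ b * n := by
    refine (PR_le_right (m := b) (subset_refl P) ?_).trans ?_
    · intro q hq
      exact (mem_filter.1 hq).2.le
    · have : ((A1 P b c' c).card : ℝ) ≤ (P.card : ℝ) := by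
        exact_mod_cast card_le_card (A1_sub P b c' c)
      exact mul_le_mul_of_nonneg_left this hb.le
  have hau : ∀ g, a g ≤ u := by
    intro g
    have : P.filter (fun p => (p, g p) ∈ S0) ⊆ R P b c := by
      intro p hp
      exact (mem_product.1 (mem_filter.1 (mem_filter.1 hp).2).1).1
    show ((P.filter (fun p => (p, g p) ∈ S0)).card : ℝ) ≤ ((R P b c).card : ℝ)
    exact_mod_cast card_le_card this
  have hav : ∀ g, a g ≤ v := by
    intro g
    have : (P.filter (fun p => (p, g p) ∈ S0)).card ≤ (R P b c').card := by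
      refine card_le_card_of_injOn g ?_ (g.injective.injOn)
      intro p hp
      exact mem_coe.2 (mem_product.1 (mem_filter.1 (mem_filter.1 (mem_coe.1 hp)).2).1).2
    show ((P.filter (fun p => (p, g p) ∈ S0)).card : ℝ) ≤ ((R P b c').card : ℝ)
    exact_mod_cast this
  have ha0 : ∀ g, 0 ≤ a g := fun g => Nat.cast_nonneg _
  have hb10 : ∀ g, 0 ≤ b1 g := fun g => Nat.cast_nonneg _
  have hb20 : ∀ g, 0 ≤ b2 g := fun g => Nat.cast_nonneg _
  have han : ∀ g, a g ≤ n := by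
    intro g
    show ((P.filter (fun p => (p, g p) ∈ S0)).card : ℝ) ≤ (P.card : ℝ)
    exact_mod_cast card_filter_le _ _
  have hr : ∀ g ∈ H, ((st P g).card : ℝ) ≤ a g + b1 g + b2 g + 1 := by
    intro g hg
    have hsub : st P g ⊆ insert c ((P.filter (fun p => (p, g p) ∈ S0)) ∪
        (P.filter (fun p => (p, g p) ∈ S1)) ∪ (P.filter (fun p => (p, g p) ∈ S2))) := by
      intro p hp
      have hpP : p ∈ P := (mem_filter.1 hp).1
      rcases st_sub hiso (b := b) (hH g hg).1 (hH g hg).2 hp with h | h | h | h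
      · exact mem_insert.2 (Or.inl h)
      · exact mem_insert.2 (Or.inr (mem_union.2 (Or.inl (mem_union.2 (Or.inl
          (mem_filter.2 ⟨hpP, h⟩))))))
      · exact mem_insert.2 (Or.inr (mem_union.2 (Or.inl (mem_union.2 (Or.inr
          (mem_filter.2 ⟨hpP, h⟩))))))
      · exact mem_insert.2 (Or.inr (mem_union.2 (Or.inr (mem_filter.2 ⟨hpP, h⟩))))
    have h1 : (st P g).card ≤ (P.filter (fun p => (p, g p) ∈ S0)).card +
        (P.filter (fun p => (p, g p) ∈ S1)).card + (P.filter (fun p => (p, g p) ∈ S2)).card + 1 := by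
      refine (card_le_card hsub).trans ((card_insert_le _ _).trans ?_)
      have h2 := card_union_le ((P.filter (fun p => (p, g p) ∈ S0)) ∪
        (P.filter (fun p => (p, g p) ∈ S1))) (P.filter (fun p => (p, g p) ∈ S2))
      have h3 := card_union_le (P.filter (fun p => (p, g p) ∈ S0))
        (P.filter (fun p => (p, g p) ∈ S1))
      omega
    show ((st P g).card : ℝ) ≤ ((P.filter (fun p => (p, g p) ∈ S0)).card : ℝ) +
        ((P.filter (fun p => (p, g p) ∈ S1)).card : ℝ) +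
        ((P.filter (fun p => (p, g p) ∈ S2)).card : ℝ) + 1
    exact_mod_cast h1
  have hrn : ∀ g, ((st P g).card : ℝ) ≤ n := by
    intro g
    show ((P.filter (fun p => g p ∈ P)).card : ℝ) ≤ (P.card : ℝ)
    exact_mod_cast card_filter_le _ _
  have hcube : ∀ g ∈ H, ((st P g).card : ℝ) ^ 3 ≤ (a g) ^ 3 + 3 * n ^ 2 * (b1 g + b2 g + 1) := by
    intro g hg
    have h1 := hr g hg
    have h2 := hrn g
    set r : ℝ := ((st P g).card : ℝ) with hrr
    have hr0 : 0 ≤ r := by positivity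
    have h3 := ha0 g
    have h4 := han g
    have h5 := hb10 g
    have h6 := hb20 g
    rcases le_or_gt r (a g) with h7 | h7
    · have : r ^ 3 ≤ (a g) ^ 3 := pow_le_pow_left₀ hr0 h7 3
      have : 0 ≤ 3 * n ^ 2 * (b1 g + b2 g + 1) := by positivity
      linarith
    · have h8 : r ^ 2 + r * a g + (a g) ^ 2 ≤ 3 * n ^ 2 := by
        have e1 : r ^ 2 ≤ n ^ 2 := pow_le_pow_left₀ hr0 h2 2
        have e2 : (a g) ^ 2 ≤ n ^ 2 := pow_le_pow_left₀ h3 h4 2
        have e3 : r * a g ≤ n * n := mul_le_mul h2 h4 h3 hn0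
        nlinarith
      have h9 : (r - a g) * (r ^ 2 + r * a g + (a g) ^ 2) ≤ (b1 g + b2 g + 1) * (3 * n ^ 2) := by
        apply mul_le_mul _ h8 (by positivity) (by positivity)
        linarith
      nlinarith
  have hacube : ∀ g, (a g) ^ 3 ≤ a g * (min u v) ^ 2 := by
    intro g
    have h1 : a g ≤ min u v := le_min (hau g) (hav g)
    have h2 : (a g) ^ 2 ≤ (min u v) ^ 2 := pow_le_pow_left₀ (ha0 g) h1 2
    calc (a g) ^ 3 = a g * (a g) ^ 2 := by ring
      _ ≤ _ := mul_le_mul_of_nonneg_left h2 (ha0 g)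
  have hu0 : 0 ≤ u := by positivity
  have hv0 : 0 ≤ v := by positivity
  have hS0min : (S0.card : ℝ) ≤ x * n * min u v := by
    rcases le_total u v with h | h
    · rw [min_eq_left h]; exact s0l
    · rw [min_eq_right h]; exact s0r
  have hmin : (min u v) ^ 3 ≤ u ^ 2 * v := by
    have h1 : 0 ≤ min u v := le_min hu0 hv0
    calc (min u v) ^ 3 = (min u v) ^ 2 * min u v := by ring
      _ ≤ u ^ 2 * v := by
        apply mul_le_mul (pow_le_pow_left₀ h1 (min_le_left _ _) 2) (min_le_right _ _) h1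
          (by positivity)
  calc ∑ g ∈ H, ((st P g).card : ℝ) ^ 3
      ≤ ∑ g ∈ H, ((a g) ^ 3 + 3 * n ^ 2 * (b1 g + b2 g + 1)) := sum_le_sum hcube
    _ = ∑ g ∈ H, (a g) ^ 3 + 3 * n ^ 2 * (∑ g ∈ H, b1 g + ∑ g ∈ H, b2 g + H.card) := by
        rw [sum_add_distrib, ← mul_sum, sum_add_distrib, sum_add_distrib, sum_const,
          nsmul_eq_mul, mul_one]
    _ ≤ 2 * x * n * (u ^ 2 * v) + 3 * n ^ 2 * (4 * b * n + H.card) := by
        apply add_le_add
        · calc ∑ g ∈ H, (a g) ^ 3 ≤ ∑ g ∈ H, a g * (min u v) ^ 2 := sum_le_sum fun g _ => hacube g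
            _ = (∑ g ∈ H, a g) * (min u v) ^ 2 := by rw [sum_mul]
            _ ≤ (2 * (x * n * min u v)) * (min u v) ^ 2 := by
                apply mul_le_mul_of_nonneg_right _ (by positivity)
                linarith
            _ = 2 * x * n * (min u v) ^ 3 := by ring
            _ ≤ 2 * x * n * (u ^ 2 * v) := by
                apply mul_le_mul_of_nonneg_left hmin (by positivity)
        · apply mul_le_mul_of_nonneg_left _ (by positivity)
          linarith

theorem sum_sq_le {C : Finset ℂ} {u : ℂ → ℝ} (hu : ∀ c, 0 ≤ u c) :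
    ∑ c ∈ C, (u c) ^ 2 ≤ (∑ c ∈ C, u c) ^ 2 := by
  classical
  rw [sq, sum_mul]
  refine sum_le_sum fun c hc => ?_
  rw [sq]
  exact mul_le_mul_of_nonneg_left (single_le_sum (fun i _ => hu i) hc) (hu c)

theorem sum_pairs {𝒬 : Finset (ℂ × ℂ)} {u : ℂ → ℝ} (hu : ∀ c, 0 ≤ u c) {D : ℝ}
    (hD : ∀ C : Finset ℂ, C.card ≤ 𝒬.card → ∑ c ∈ C, u c ≤ D) :
    ∑ z ∈ 𝒬, (u z.1) ^ 2 * u z.2 ≤ D ^ 3 := by
  classical
  set C := 𝒬.image Prod.fst with hC
  set C' := 𝒬.image Prod.snd with hC'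
  have h1 : 𝒬 ⊆ C ×ˢ C' := fun z hz => mem_product.2 ⟨mem_image_of_mem _ hz, mem_image_of_mem _ hz⟩
  have h0 : 0 ≤ ∑ c ∈ C, u c := sum_nonneg fun c _ => hu c
  have h0' : 0 ≤ ∑ c ∈ C', u c := sum_nonneg fun c _ => hu c
  calc ∑ z ∈ 𝒬, (u z.1) ^ 2 * u z.2 ≤ ∑ z ∈ C ×ˢ C', (u z.1) ^ 2 * u z.2 :=
        sum_le_sum_of_subset_of_nonneg h1 fun z _ _ => mul_nonneg (sq_nonneg _) (hu _)
    _ = (∑ c ∈ C, (u c) ^ 2) * ∑ c ∈ C', u c := by
        rw [sum_product, sum_mul_sum]
    _ ≤ (∑ c ∈ C, u c) ^ 2 * ∑ c ∈ C', u c := mul_le_mul_of_nonneg_right (sum_sq_le hu) h0'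
    _ ≤ D ^ 2 * D := by
        have e1 := hD C card_image_le
        have e2 := hD C' card_image_le
        exact mul_le_mul (pow_le_pow_left₀ h0 e1 2) e2 h0' (sq_nonneg _)
    _ = D ^ 3 := by ring

theorem sum_cover {𝒬 : Finset (ℂ × ℂ)} {𝒢 : Finset Gp} {f : Gp → ℝ} (hf : ∀ g, 0 ≤ f g)
    (h : ∀ g ∈ 𝒢, ∃ z ∈ 𝒬, g z.1 = z.2) :
    ∑ g ∈ 𝒢, f g ≤ ∑ z ∈ 𝒬, ∑ g ∈ 𝒢.filter (fun g => g z.1 = z.2), f g := by
  classical
  calc ∑ g ∈ 𝒢, f g ≤ ∑ g ∈ 𝒢, ∑ z ∈ 𝒬, (if g z.1 = z.2 then f g else 0) := by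
        refine sum_le_sum fun g hg => ?_
        obtain ⟨z, hz, hgz⟩ := h g hg
        calc f g = (if g z.1 = z.2 then f g else 0) := by rw [if_pos hgz]
          _ ≤ _ := single_le_sum (f := fun z => (if g z.1 = z.2 then f g else 0))
                (fun i _ => by split_ifs; exacts [hf g, le_rfl]) hz
    _ = ∑ z ∈ 𝒬, ∑ g ∈ 𝒢, (if g z.1 = z.2 then f g else 0) := sum_comm
    _ = _ := by
        refine sum_congr rfl fun z _ => ?_
        rw [sum_filter]

end UP

set_option maxHeartbeats 4000000 in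
theorem stmt_UP (hTWO : Stmt_TWO) (hGEO : Stmt_GEO) : Stmt_UP := by
  classical
  intro L δ η hδ hη
  have hiso := hGEO.2.2.2.2.2.2.2.2.2.2.2.1
  set β : ℝ := η / (48 * L + 48) with hβ
  have hβ0 : 0 < β := by positivity
  set D : ℝ := (L : ℝ) ^ 2 * (2 * (1 / β) ^ 2) with hDdef
  have hD0 : 0 ≤ D := by positivity
  obtain ⟨n₀, hn₀⟩ := exists_nat_ge (2 / δ + 48 * L / (δ * η) + 56 * D / η + D + 1)
  refine ⟨n₀, ?_⟩
  intro P x hP hx0 hx1 hx 𝒬 𝒢 h𝒬 hiG hrG hcov
  set n : ℝ := (P.card : ℝ) with hn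
  have hnn : 2 / δ + 48 * L / (δ * η) + 56 * D / η + D + 1 ≤ n :=
    hn₀.trans (by rw [hn]; exact_mod_cast hP)
  have t1 : 0 ≤ 2 / δ := by positivity
  have t2 : 0 ≤ 48 * L / (δ * η) := by positivity
  have t3 : 0 ≤ 56 * D / η := by positivity
  have hn1 : 1 ≤ n := by linarith
  have hnpos : 0 < n := by linarith
  have hn2 : 2 ≤ δ * n := by
    have : 2 / δ ≤ n := by linarith
    rw [div_le_iff₀ hδ] at this
    linarith
  have hn3 : 48 * L ≤ δ * η * n := by
    have : 48 * L / (δ * η) ≤ n := by linarith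
    rw [div_le_iff₀ (by positivity)] at this
    linarith
  have hn4 : 56 * D ≤ η * n := by
    have : 56 * D / η ≤ n := by linarith
    rw [div_le_iff₀ (by positivity)] at this
    linarith
  have hn5 : D ≤ n := by linarith
  set b : ℝ := β * n with hb
  have hb0 : 0 < b := by positivity
  have hbn : n / b = 1 / β := by rw [hb]; field_simp
  have hL : (𝒬.card : ℝ) ≤ L := by exact_mod_cast h𝒬
  have hxx : ∀ (c : ℂ) (ρ : ℝ), 0 < ρ → (UP.nc P c ρ : ℝ) ≤ x * P.card := by
    intro c ρ hρ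
    have := hx c ρ hρ
    unfold UP.nc
    convert this
  set u : ℂ → ℝ := fun c => ((UP.R P b c).card : ℝ) with hu
  have hu0 : ∀ c, 0 ≤ u c := fun c => Nat.cast_nonneg _
  have hsumu : ∀ C : Finset ℂ, C.card ≤ 𝒬.card → ∑ c ∈ C, u c ≤ n + D := by
    intro C hC
    have h1 := UP.sum_R P hb0 C
    have hC' : (C.card : ℝ) ≤ L := le_trans (by exact_mod_cast hC) hL
    have h2 : (C.card : ℝ) ^ 2 * (2 * ((P.card : ℝ) / b) ^ 2) ≤ D := by
      rw [← hn, hbn, hDdef]
      apply mul_le_mul_of_nonneg_right _ (by positivity)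
      exact pow_le_pow_left₀ (Nat.cast_nonneg _) hC' 2
    have h3 : ∑ c ∈ C, u c = ∑ c ∈ C, ((UP.R P b c).card : ℝ) := rfl
    rw [h3]; linarith
  have hpairs := UP.sum_pairs hu0 hsumu
  have hone : ∀ z ∈ 𝒬, ∑ g ∈ 𝒢.filter (fun g => g z.1 = z.2), ((st P g).card : ℝ) ^ 3 ≤
      2 * x * n * ((u z.1) ^ 2 * u z.2) + 3 * n ^ 2 * (4 * b * n + 4 * n / δ) := by
    intro z _
    have hH : ∀ g ∈ 𝒢.filter (fun g => g z.1 = z.2), IsIso g ∧ g z.1 = z.2 := by
      intro g hg
      obtain ⟨h1, h2⟩ := mem_filter.1 hg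
      exact ⟨hiG g h1, h2⟩
    have h1 := UP.one_pair hTWO hiso hx0 hb0 hxx hH
    have h2 := UP.card_H hTWO hH hδ (fun g hg => hrG g (mem_filter.1 hg).1) hn2
    refine h1.trans ?_
    have h3 : 3 * n ^ 2 * (4 * b * n + (𝒢.filter (fun g => g z.1 = z.2)).card) ≤
        3 * n ^ 2 * (4 * b * n + 4 * n / δ) := by
      apply mul_le_mul_of_nonneg_left _ (by positivity)
      linarith
    have h4 : 2 * x * n * ((u z.1) ^ 2 * u z.2) = 2 * x * (P.card : ℝ) *
      (((UP.R P b z.1).card : ℝ) ^ 2 * (UP.R P b z.2).card) := rfl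
    rw [h4]
    linarith
  have hmain : ∑ g ∈ 𝒢, ((st P g).card : ℝ) ^ 3 ≤
      2 * x * n * (n + D) ^ 3 + L * (3 * n ^ 2 * (4 * b * n + 4 * n / δ)) := by
    refine (UP.sum_cover (𝒬 := 𝒬) (fun g => by positivity) hcov).trans ?_
    refine (sum_le_sum hone).trans ?_
    rw [sum_add_distrib, ← mul_sum, sum_const, nsmul_eq_mul]
    apply add_le_add
    · exact mul_le_mul_of_nonneg_left hpairs (by positivity)
    · exact mul_le_mul_of_nonneg_right hL (by positivity)
  refine hmain.trans ?_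
  have f1 : 2 * x * n * (n + D) ^ 3 ≤ 2 * x * n ^ 4 + η / 4 * n ^ 4 := by
    have g1 : (n + D) ^ 3 ≤ n ^ 3 + 7 * n ^ 2 * D := by
      have e1 : n * D ^ 2 ≤ n * (n * D) := by
        apply mul_le_mul_of_nonneg_left _ hnpos.le
        nlinarith
      have e2 : D ^ 3 ≤ n ^ 2 * D := by
        have : D ^ 2 ≤ n ^ 2 := pow_le_pow_left₀ hD0 hn5 2
        nlinarith
      nlinarith
    have g2 : 2 * x * n * (n + D) ^ 3 ≤ 2 * x * n * (n ^ 3 + 7 * n ^ 2 * D) :=
      mul_le_mul_of_nonneg_left g1 (by positivity)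
    have g3 : 14 * x * n ^ 3 * D ≤ 14 * n ^ 3 * D := by
      have : 14 * x * (n ^ 3 * D) ≤ 14 * 1 * (n ^ 3 * D) := by
        apply mul_le_mul_of_nonneg_right _ (by positivity)
        linarith
      linarith
    have g4 : n ^ 3 * (56 * D) ≤ n ^ 3 * (η * n) := mul_le_mul_of_nonneg_left hn4 (by positivity)
    nlinarith
  have f2 : (L : ℝ) * (3 * n ^ 2 * (4 * b * n)) ≤ η / 4 * n ^ 4 := by
    have e1 : (L : ℝ) * β ≤ η / 48 := by
      rw [hβ, mul_div_assoc', div_le_div_iff₀ (by positivity) (by norm_num)]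
      nlinarith [Nat.cast_nonneg (α := ℝ) L]
    have e2 : (L : ℝ) * (3 * n ^ 2 * (4 * b * n)) = 12 * ((L : ℝ) * β) * n ^ 4 := by
      rw [hb]; ring
    rw [e2]
    have e3 : 12 * ((L : ℝ) * β) ≤ η / 4 := by linarith
    exact mul_le_mul_of_nonneg_right e3 (by positivity)
  have f3 : (L : ℝ) * (3 * n ^ 2 * (4 * n / δ)) ≤ η / 4 * n ^ 4 := by
    have e1 : (L : ℝ) * (3 * n ^ 2 * (4 * n / δ)) = (12 * L * n ^ 3) / δ := by ring
    rw [e1, div_le_iff₀ hδ]
    have e2 : n ^ 3 * (48 * L) ≤ n ^ 3 * (δ * η * n) :=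
      mul_le_mul_of_nonneg_left hn3 (by positivity)
    nlinarith
  have f4 : (L : ℝ) * (3 * n ^ 2 * (4 * b * n + 4 * n / δ)) =
    (L : ℝ) * (3 * n ^ 2 * (4 * b * n)) + (L : ℝ) * (3 * n ^ 2 * (4 * n / δ)) := by ring
  have f5 : 0 ≤ η * n ^ 4 := by positivity
  rw [f4]
  nlinarith

end Pool.BK
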