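import Pool.Agent.Work.MP_dc37f8_bk.Interface
import Pool.Agent.Work.MP_dc37f8_bk.E3

/-! CIRC: a large circle (from E3, PAIR, SEL, UP). -/

set_option autoImplicit false

open Finset

namespace Pool.BK

namespace CIRC

open E3

open Classical in
/-- the third moment from below, over isometries that keep at least two points -/
theorem E3' (hCON : Stmt_CON) (P : Finset ℂ) : ∃ 𝒢 : Finset Gp,
    (∀ g ∈ 𝒢, IsIso g) ∧ (∀ g ∈ 𝒢, 2 ≤ (st P g).card) ∧
    ((P.card : ℝ) * (P.card - 1) * (P.card - 2)) ^ 2 ≤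
      6 * (TC P).card * ∑ g ∈ 𝒢, ((st P g).card : ℝ) ^ 3 := by
  set E := (T3 P ×ˢ T3 P).filter (fun z => key z.1 = key z.2) with hE
  have hex : ∀ z : (ℂ × ℂ × ℂ) × (ℂ × ℂ × ℂ), ∃ g : Gp, z ∈ E →
      (IsIso g ∧ g z.1.1 = z.2.1 ∧ g z.1.2.1 = z.2.2.1 ∧ g z.1.2.2 = z.2.2.2) := by
    intro z
    by_cases hz : z ∈ E
    · obtain ⟨h1, h2⟩ := Finset.mem_filter.mp hz
      obtain ⟨h3, h4⟩ := Finset.mem_product.mp h1
      have h5 := (mem_T3.mp h3).2.1
      have k1 : dist z.1.1 z.1.2.1 = dist z.2.1 z.2.2.1 := congrArg (fun w : ℝ × ℝ × ℝ => w.1) h2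
      have k2 : dist z.1.2.1 z.1.2.2 = dist z.2.2.1 z.2.2.2 :=
        congrArg (fun w : ℝ × ℝ × ℝ => w.2.1) h2
      have k3 : dist z.1.1 z.1.2.2 = dist z.2.1 z.2.2.2 :=
        congrArg (fun w : ℝ × ℝ × ℝ => w.2.2) h2
      obtain ⟨g, hg⟩ := hCON _ _ _ _ _ _ h5 k1 k2 k3
      exact ⟨g, fun _ => hg⟩
    · exact ⟨1, fun h => absurd h hz⟩
  choose φ hφ using hex
  refine ⟨E.image φ, ?_, ?_, ?_⟩
  · intro g hg
    obtain ⟨z, hz, rfl⟩ := Finset.mem_image.mp hg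
    exact (hφ z hz).1
  · intro g hg
    obtain ⟨z, hz, rfl⟩ := Finset.mem_image.mp hg
    obtain ⟨_, k1, k2, k3⟩ := hφ z hz
    obtain ⟨h1, h2⟩ := Finset.mem_filter.mp hz
    obtain ⟨h3, h4⟩ := Finset.mem_product.mp h1
    obtain ⟨⟨a1, a2, a3⟩, a4, _⟩ := mem_T3.mp h3
    obtain ⟨⟨b1, b2, b3⟩, _⟩ := mem_T3.mp h4
    refine Finset.one_lt_card.2 ⟨z.1.1, ?_, z.1.2.1, ?_, a4⟩
    · exact Finset.mem_filter.2 ⟨a1, by rw [k1]; exact b1⟩
    · exact Finset.mem_filter.2 ⟨a2, by rw [k2]; exact b2⟩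
  · rw [← card_T3]
    have h1 := cs (T3 P) key
    have h2 : ((((T3 P).image key).card : ℕ) : ℝ) ≤ 6 * (TC P).card := by
      exact_mod_cast card_keys P
    have h3 : (E.card : ℝ) ≤ ∑ g ∈ E.image φ, ((st P g).card : ℝ) ^ 3 := by
      rw [Finset.card_eq_sum_card_image φ E]
      push_cast
      apply Finset.sum_le_sum
      intro g hg
      have h4 : (E.filter (fun z => φ z = g)).card ≤ ((st P g) ×ˢ (st P g) ×ˢ (st P g)).card := by
        apply Finset.card_le_card_of_injOn (fun z => z.1)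
        · intro z hz
          obtain ⟨hz1, hz2⟩ := Finset.mem_filter.mp (Finset.mem_coe.mp hz)
          obtain ⟨_, k1, k2, k3⟩ := hφ z hz1
          rw [hz2] at k1 k2 k3
          obtain ⟨h1, h2⟩ := Finset.mem_filter.mp hz1
          obtain ⟨h3, h4⟩ := Finset.mem_product.mp h1
          obtain ⟨⟨a1, a2, a3⟩, _⟩ := mem_T3.mp h3
          obtain ⟨⟨b1, b2, b3⟩, _⟩ := mem_T3.mp h4
          apply Finset.mem_coe.mpr
          rw [Finset.mem_product, Finset.mem_product]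
          unfold st
          refine ⟨Finset.mem_filter.mpr ⟨a1, ?_⟩, Finset.mem_filter.mpr ⟨a2, ?_⟩,
            Finset.mem_filter.mpr ⟨a3, ?_⟩⟩
          · rw [k1]; exact b1
          · rw [k2]; exact b2
          · rw [k3]; exact b3
        · intro z hz w hw hzw
          obtain ⟨hz1, hz2⟩ := Finset.mem_filter.mp (Finset.mem_coe.mp hz)
          obtain ⟨hw1, hw2⟩ := Finset.mem_filter.mp (Finset.mem_coe.mp hw)
          obtain ⟨_, k1, k2, k3⟩ := hφ z hz1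
          obtain ⟨_, l1, l2, l3⟩ := hφ w hw1
          rw [hz2] at k1 k2 k3
          rw [hw2] at l1 l2 l3
          have hzw' : z.1 = w.1 := hzw
          rw [hzw'] at k1 k2 k3
          apply Prod.ext hzw'
          apply Prod.ext
          · rw [← k1, ← l1]
          · apply Prod.ext
            · rw [← k2, ← l2]
            · rw [← k3, ← l3]
      rw [Finset.card_product, Finset.card_product] at h4
      have h5 : (((E.filter (fun z => φ z = g)).card : ℕ) : ℝ) ≤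
          (((st P g).card * ((st P g).card * (st P g).card) : ℕ) : ℝ) := by exact_mod_cast h4
      refine h5.trans (le_of_eq ?_)
      push_cast; ring
    calc ((T3 P).card : ℝ) ^ 2 ≤ (((T3 P).image key).card : ℝ) * (E.card : ℝ) := h1
      _ ≤ (6 * (TC P).card) * ∑ g ∈ E.image φ, ((st P g).card : ℝ) ^ 3 := by
          apply mul_le_mul h2 h3 (by positivity) (by positivity)

/-- the third moment is at most `(2x + e) n⁴` if no circle has more than `x n` points -/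
theorem upper (hPAIR : Stmt_PAIR) (hSEL : Stmt_SEL) (hUP : Stmt_UP) (k : ℕ) {e : ℝ} (he : 0 < e) :
    ∃ n₀ : ℕ, ∀ (P : Finset ℂ) (x : ℝ), LB P k → n₀ ≤ P.card → 0 ≤ x → x ≤ 1 →
      (∀ (c : ℂ) (ρ : ℝ), 0 < ρ → ((P.filter (fun p => dist p c = ρ)).card : ℝ) ≤ x * P.card) →
      ∀ 𝒢 : Finset Gp, (∀ g ∈ 𝒢, IsIso g) → (∀ g ∈ 𝒢, 2 ≤ (st P g).card) →
        ∑ g ∈ 𝒢, ((st P g).card : ℝ) ^ 3 ≤ (2 * x + e) * (P.card : ℝ) ^ 4 := by
  classical
  set δ : ℝ := e / (12 * (k + 1)) with hδ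
  have hδ0 : 0 < δ := by positivity
  obtain ⟨L, n₁, h1⟩ := hSEL k δ (e / 3) hδ0 (by positivity)
  obtain ⟨n₂, h2⟩ := hUP L δ (e / 3) hδ0 (by positivity)
  refine ⟨n₁ + n₂, ?_⟩
  intro P x hLB hP hx0 hx1 hx 𝒢 hiso h2st
  set n : ℝ := (P.card : ℝ) with hn
  have hn0 : 0 ≤ n := Nat.cast_nonneg _
  set r : Gp → ℝ := fun g => ((st P g).card : ℝ) with hr
  have hr0 : ∀ g, 0 ≤ r g := fun g => Nat.cast_nonneg _
  have hrn : ∀ g, r g ≤ n := by
    intro g
    show ((P.filter (fun p => g p ∈ P)).card : ℝ) ≤ (P.card : ℝ)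
    exact_mod_cast card_filter_le _ _
  set A := 𝒢.filter (fun g => ¬ (δ * n ≤ r g)) with hA
  set B := 𝒢.filter (fun g => δ * n ≤ r g) with hB
  obtain ⟨𝒬, hQ1, hQ2⟩ := h1 P hLB (by omega) B (fun g hg => hiso g (mem_filter.1 hg).1)
    (fun g hg => (mem_filter.1 hg).2)
  obtain ⟨q, hq⟩ : ∃ q : Gp → Prop, ∀ g, q g ↔ ∀ z ∈ 𝒬, g z.1 ≠ z.2 :=
    ⟨fun g => ∀ z ∈ 𝒬, g z.1 ≠ z.2, fun g => Iff.rfl⟩
  set C := B.filter q with hC
  set D := B.filter (fun g => ¬ q g) with hD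
  have hCcard : (C.card : ℝ) ≤ e / 3 * n := by
    refine le_trans (le_of_eq ?_) hQ2
    congr 2
    ext g
    simp only [hC, Finset.mem_filter, hq]
  have sAB : ∑ g ∈ 𝒢, (r g) ^ 3 = ∑ g ∈ B, (r g) ^ 3 + ∑ g ∈ A, (r g) ^ 3 := by
    rw [hA, hB]; exact (sum_filter_add_sum_filter_not 𝒢 _ _).symm
  have sCD : ∑ g ∈ B, (r g) ^ 3 = ∑ g ∈ C, (r g) ^ 3 + ∑ g ∈ D, (r g) ^ 3 := by
    rw [hC, hD]; exact (sum_filter_add_sum_filter_not B _ _).symm
  have bA : ∑ g ∈ A, (r g) ^ 3 ≤ (e / 3) * n ^ 4 := by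
    have e1 : ∀ g ∈ A, (r g) ^ 3 ≤ (2 * δ * n) * (r g * (r g - 1)) := by
      intro g hg
      obtain ⟨hg1, hg2⟩ := mem_filter.1 hg
      push Not at hg2
      have h2 : (2 : ℝ) ≤ r g := by
        show (2 : ℝ) ≤ ((st P g).card : ℝ)
        exact_mod_cast h2st g hg1
      have h3 : (r g) ^ 2 ≤ 2 * (r g * (r g - 1)) := by nlinarith
      calc (r g) ^ 3 = r g * (r g) ^ 2 := by ring
        _ ≤ (δ * n) * (2 * (r g * (r g - 1))) := by
            apply mul_le_mul hg2.le h3 (by positivity) (by positivity)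
        _ = _ := by ring
    have e2 := hPAIR P k hLB A (fun g hg => hiso g (mem_filter.1 hg).1)
    calc ∑ g ∈ A, (r g) ^ 3 ≤ ∑ g ∈ A, (2 * δ * n) * (r g * (r g - 1)) := sum_le_sum e1
      _ = (2 * δ * n) * ∑ g ∈ A, (r g * (r g - 1)) := by rw [mul_sum]
      _ ≤ (2 * δ * n) * (2 * (k + 1) * n ^ 3) := by
          apply mul_le_mul_of_nonneg_left _ (by positivity)
          exact e2
      _ = (e / 3) * n ^ 4 := by
          rw [hδ]; field_simp; ring
  have bC : ∑ g ∈ C, (r g) ^ 3 ≤ (e / 3) * n ^ 4 := by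
    have e1 : ∀ g ∈ C, (r g) ^ 3 ≤ n ^ 3 := fun g _ => pow_le_pow_left₀ (hr0 g) (hrn g) 3
    have e2 : (C.card : ℝ) ≤ e / 3 * n := hCcard
    calc ∑ g ∈ C, (r g) ^ 3 ≤ ∑ _g ∈ C, n ^ 3 := sum_le_sum e1
      _ = C.card * n ^ 3 := by rw [sum_const, nsmul_eq_mul]
      _ ≤ (e / 3 * n) * n ^ 3 := mul_le_mul_of_nonneg_right e2 (by positivity)
      _ = _ := by ring
  have bD : ∑ g ∈ D, (r g) ^ 3 ≤ (2 * x + e / 3) * n ^ 4 := by
    refine h2 P x (by omega) hx0 hx1 hx 𝒬 D hQ1 (fun g hg => hiso g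
      (mem_filter.1 (mem_filter.1 hg).1).1) (fun g hg => (mem_filter.1 (mem_filter.1 hg).1).2) ?_
    intro g hg
    have := (mem_filter.1 hg).2
    rw [hq] at this
    push Not at this
    exact this
  have : ∑ g ∈ 𝒢, (r g) ^ 3 ≤ (2 * x + e) * n ^ 4 := by
    rw [sAB, sCD]
    nlinarith
  exact this

end CIRC

set_option maxHeartbeats 4000000 in
theorem stmt_CIRC (hCON : Stmt_CON) (hPAIR : Stmt_PAIR) (hSEL : Stmt_SEL) (hUP : Stmt_UP) :
    Stmt_CIRC := by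
  classical
  intro k η hη
  set e : ℝ := min η 1 with he
  have he0 : 0 < e := lt_min hη one_pos
  have he1 : e ≤ 1 := min_le_right _ _
  have heη : e ≤ η := min_le_left _ _
  obtain ⟨n₁, h1⟩ := CIRC.upper hPAIR hSEL hUP k (e := e / 2) (by positivity)
  obtain ⟨n₂, hn₂⟩ := exists_nat_ge (48 / e)
  refine ⟨n₁ + n₂ + 24, ?_⟩
  intro P hLB hP
  by_contra hcon
  push Not at hcon
  set n : ℝ := (P.card : ℝ) with hn
  have hn24 : (24 : ℝ) ≤ n := by
    rw [hn]; exact_mod_cast (by omega : 24 ≤ P.card)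
  have hne : 48 ≤ e * n := by
    have h2 : (n₂ : ℝ) ≤ n := by rw [hn]; exact_mod_cast (by omega : n₂ ≤ P.card)
    have h3 : 48 / e ≤ n := hn₂.trans h2
    rw [div_le_iff₀ he0] at h3
    linarith
  obtain ⟨𝒢, hG1, hG2, hG3⟩ := CIRC.E3' hCON P
  set T : ℝ := ((TC P).card : ℝ) with hT
  set S : ℝ := ∑ g ∈ 𝒢, ((st P g).card : ℝ) ^ 3 with hS
  have hS0 : 0 ≤ S := sum_nonneg fun g _ => by positivity
  have hT0' : 0 ≤ T := Nat.cast_nonneg _
  -- (1 - 3/n) bound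
  have hlow : (n ^ 3 - 3 * n ^ 2) ^ 2 ≤ 6 * T * S := by
    refine le_trans ?_ hG3
    apply pow_le_pow_left₀
    · nlinarith
    · have : (P.card : ℝ) = n := rfl
      rw [this]
      nlinarith
  have hpos : 0 < (n ^ 3 - 3 * n ^ 2) ^ 2 := by
    have : 0 < n ^ 3 - 3 * n ^ 2 := by
      have h : n ^ 3 - 3 * n ^ 2 = n ^ 2 * (n - 3) := by ring
      rw [h]
      have : 0 < n - 3 := by linarith
      positivity
    positivity
  have hTpos : 0 < T := by
    rcases hT0'.lt_or_eq with h | h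
    · exact h
    · exfalso
      rw [← h] at hlow
      simp at hlow
      nlinarith
  set y : ℝ := n ^ 2 / (12 * T) with hy
  have hy0 : 0 < y := by positivity
  have hyT : 12 * T * y = n ^ 2 := by rw [hy]; field_simp
  have hcirc : ∀ (c : ℂ) (ρ : ℝ), 0 < ρ →
      ((P.filter (fun p => dist p c = ρ)).card : ℝ) < (y - η) * n := by
    intro c ρ hρ
    have h2 := hcon c ρ hρ
    set m : ℝ := ((P.filter (fun p => dist p c = ρ)).card : ℝ) with hm
    have h3 : 12 * T * (m + η * n) < 12 * T * (y * n) := by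
      have : 12 * T * (y * n) = n ^ 3 := by
        calc 12 * T * (y * n) = (12 * T * y) * n := by ring
          _ = n ^ 3 := by rw [hyT]; ring
      rw [this]
      exact h2
    have h4 : m + η * n < y * n := lt_of_mul_lt_mul_left h3 (by positivity)
    linarith
  have hyη : 0 < y - η := by
    have h2 := hcirc 0 1 one_pos
    have h3 : (0 : ℝ) ≤ ((P.filter (fun p => dist p 0 = 1)).card : ℝ) := Nat.cast_nonneg _
    have h4 : 0 < (y - η) * n := lt_of_le_of_lt h3 h2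
    by_contra hneg
    push Not at hneg
    nlinarith
  -- upper bounds
  have hup : ∀ x : ℝ, 0 ≤ x → x ≤ 1 → (∀ (c : ℂ) (ρ : ℝ), 0 < ρ →
      ((P.filter (fun p => dist p c = ρ)).card : ℝ) ≤ x * P.card) →
      2 * y * (n - 6) ≤ (2 * x + e / 2) * n := by
    intro x hx0 hx1 hx
    have h2 := h1 P x hLB (by omega) hx0 hx1 hx 𝒢 hG1 hG2
    have h3 : (n ^ 3 - 3 * n ^ 2) ^ 2 ≤ 6 * T * ((2 * x + e / 2) * n ^ 4) :=
      hlow.trans (mul_le_mul_of_nonneg_left h2 (by positivity))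
    have h4 : n ^ 5 * (n - 6) ≤ (n ^ 3 - 3 * n ^ 2) ^ 2 := by nlinarith [sq_nonneg (n ^ 2)]
    have h5 : n ^ 5 * (n - 6) ≤ 6 * T * ((2 * x + e / 2) * n ^ 4) := h4.trans h3
    have h6 : n ^ 5 * (n - 6) = 6 * T * ((2 * y * (n - 6)) * n ^ 3) := by
      calc n ^ 5 * (n - 6) = n ^ 2 * (n ^ 3 * (n - 6)) := by ring
        _ = (12 * T * y) * (n ^ 3 * (n - 6)) := by rw [hyT]
        _ = _ := by ring
    have h7 : 6 * T * ((2 * x + e / 2) * n ^ 4) = 6 * T * (((2 * x + e / 2) * n) * n ^ 3) := by ring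
    rw [h6, h7] at h5
    have h8 : (2 * y * (n - 6)) * n ^ 3 ≤ ((2 * x + e / 2) * n) * n ^ 3 :=
      le_of_mul_le_mul_left h5 (by positivity)
    exact le_of_mul_le_mul_right h8 (by positivity)
  have hy2 : y ≤ 2 := by
    have h2 := hup 1 zero_le_one le_rfl (by
      intro c ρ _
      rw [one_mul]
      exact_mod_cast card_filter_le _ _)
    by_contra hcon2
    push Not at hcon2
    nlinarith
  set x : ℝ := min (y - η) 1 with hx
  have hx0 : 0 ≤ x := le_min hyη.le zero_le_one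
  have h2 := hup x hx0 (min_le_right _ _) (by
    intro c ρ hρ
    rcases le_total (y - η) 1 with h | h
    · rw [hx, min_eq_left h]
      exact (hcirc c ρ hρ).le
    · rw [hx, min_eq_right h, one_mul]
      exact_mod_cast card_filter_le _ _)
  have h3 : x ≤ y - η := min_le_left _ _
  have h4 : (2 * x + e / 2) * n ≤ (2 * (y - η) + e / 2) * n :=
    mul_le_mul_of_nonneg_right (by linarith) (by linarith)
  -- 2 y n - 12 y ≤ 2 y n - 2 η n + e n / 2
  have h5 : 2 * η * n ≤ e / 2 * n + 12 * y := by linarith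
  have h6 : 2 * e * n ≤ 2 * η * n := by
    apply mul_le_mul_of_nonneg_right _ (by linarith)
    linarith
  nlinarith

end Pool.BK
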