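import Pool.Agent.Work.MP_dc37f8_bk.Interface

/-! Block CORE: small doubling gives a common pair of centres. -/

set_option autoImplicit false

open Finset

open scoped Pointwise

namespace Pool.BK

namespace CORE

/-- linear part of a direct isometry -/
def lin (x : Gp) : ℂ := x 1 - x 0

open Classical in
/-- number of translations in `S^4` -/
lemma trans_bound (hG : Stmt_GEO) (S : Finset Gp) (hS : ∀ x ∈ S, IsDir x) (B : Finset Gp)
    (hBS : B ⊆ S) :
    ((S ^ 4).filter IsTr).card * (B.image lin).card ≤ (S ^ 5).card := by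
  obtain ⟨g1, g2, g3, g4, g5, g6, g7, g8, g9, g10, g11, g12, g13⟩ := hG
  have hβ : ∀ θ : ℂ, ∃ b : Gp, θ ∈ B.image lin → b ∈ B ∧ lin b = θ := by
    intro θ
    by_cases h : θ ∈ B.image lin
    · obtain ⟨b, hb, hbθ⟩ := Finset.mem_image.mp h
      exact ⟨b, fun _ => ⟨hb, hbθ⟩⟩
    · exact ⟨1, fun h' => absurd h' h⟩
  choose β hβ using hβ
  rw [← Finset.card_product]
  apply Finset.card_le_card_of_injOn (fun z => z.1 * β z.2)
  · rintro ⟨f, θ⟩ hz
    simp only [Finset.coe_product, Set.mem_prod, Finset.mem_coe, Finset.mem_filter] at hz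
    rw [Finset.mem_coe, pow_succ]
    exact Finset.mul_mem_mul hz.1.1 (hBS (hβ θ hz.2).1)
  · rintro ⟨f, θ⟩ hz ⟨f', θ'⟩ hw h
    simp only [Finset.coe_product, Set.mem_prod, Finset.mem_coe, Finset.mem_filter] at hz hw
    simp only at h
    have e1 := g9 f (β θ) hz.1.2 (hS _ (hBS (hβ θ hz.2).1))
    have e2 := g9 f' (β θ') hw.1.2 (hS _ (hBS (hβ θ' hw.2).1))
    rw [h] at e1
    have e3 : θ = θ' := by
      rw [← (hβ θ hz.2).2, ← (hβ θ' hw.2).2]
      unfold lin
      rw [← e1, ← e2]
    subst e3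
    rw [mul_right_cancel h]

open Classical in
/-- Case I -/
lemma caseI (hG : Stmt_GEO) (k : ℕ) (δ K' : ℝ) (hδ : 0 < δ) (NL : ℕ)
    (hNL : ∀ Y : Finset ℂ, NL ≤ Y.card → ((Y + Y).card : ℝ) ≤ K' / δ * Y.card →
      ∃ p v : ℂ, v ≠ 0 ∧ k < (Y.filter (fun q => ∃ s : ℝ, q = p + s * v)).card)
    (P : Finset ℂ) (hP : LB P k) (hPne : P.Nonempty) (S : Finset Gp) (a : Gp) (ha : IsIso a)
    (hinv : S⁻¹ = S) (hS : ∀ x ∈ S, IsDir x) (F : Finset Gp) (hFS : F ⊆ S) (θ : ℂ)
    (hθ : ∀ b ∈ F, lin b = θ) (hr : ∀ b ∈ F, δ * P.card ≤ (st P (a * b)).card)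
    (hT : (((S ^ 4).filter IsTr).card : ℝ) ≤ K' * F.card) (hK' : 0 ≤ K')
    (hF : (NL : ℝ) ≤ δ * F.card) (hFne : F.Nonempty) : False := by
  obtain ⟨g1, g2, g3, g4, g5, g6, g7, g8, g9, g10, g11, g12, g13⟩ := hG
  have hn : (0 : ℝ) < P.card := by exact_mod_cast hPne.card_pos
  -- a point `p` that works for many `b`
  obtain ⟨p, hp, hpF⟩ : ∃ p ∈ P, δ * F.card ≤ ((F.filter (fun b => a (b p) ∈ P)).card : ℝ) := by
    by_contra hcon
    push Not at hcon
    have h1 : ∑ b ∈ F, ((st P (a * b)).card : ℝ) =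
        ∑ p ∈ P, ((F.filter (fun b => a (b p) ∈ P)).card : ℝ) := by
      have : ∑ b ∈ F, (st P (a * b)).card = ∑ p ∈ P, (F.filter (fun b => a (b p) ∈ P)).card := by
        have e1 : ∀ b, (st P (a * b)).card = ∑ p ∈ P, if a (b p) ∈ P then 1 else 0 := by
          intro b
          rw [st, Finset.card_filter]
          rfl
        have e2 : ∀ p, (F.filter (fun b => a (b p) ∈ P)).card =
            ∑ b ∈ F, if a (b p) ∈ P then 1 else 0 := fun p => Finset.card_filter _ _
        simp only [e1, e2]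
        rw [Finset.sum_comm]
      exact_mod_cast this
    have h2 : ∑ b ∈ F, δ * (P.card : ℝ) ≤ ∑ b ∈ F, ((st P (a * b)).card : ℝ) :=
      Finset.sum_le_sum hr
    have h3 : ∑ p ∈ P, ((F.filter (fun b => a (b p) ∈ P)).card : ℝ) <
        ∑ p ∈ P, δ * (F.card : ℝ) := Finset.sum_lt_sum_of_nonempty hPne hcon
    rw [Finset.sum_const, nsmul_eq_mul] at h2 h3
    rw [h1] at h2
    nlinarith
  obtain ⟨b0, hb0⟩ := hFne
  have hb0D := hS _ (hFS hb0)
  -- the translations
  have htr : ∀ b ∈ F, IsTr (b * b0⁻¹) := by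
    intro b hb
    exact g6 b b0 (hS _ (hFS hb)) hb0D (by
      have e1 := hθ b hb
      have e2 := hθ b0 hb0
      unfold lin at e1 e2
      rw [e1, e2])
  have key : ∀ (b : Gp) (z : ℂ), (b * b0⁻¹) (b0 z) = b z := by
    intro b z
    rw [← Function.comp_apply (f := (b * b0⁻¹ : Gp)), ← Equiv.Perm.coe_mul, mul_assoc,
      inv_mul_cancel, mul_one]
  have hadd : ∀ z t : ℂ, a (z + t) - a z = a t - a 0 := by
    intro z t
    have := g13 a ha z t
    linear_combination this
  obtain ⟨Y, hY⟩ : ∃ Y : Finset ℂ,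
      Y = (F.filter (fun b => a (b p) ∈ P)).image (fun b => a (b p) - a (b0 p)) := ⟨_, rfl⟩
  have hYcard : Y.card = (F.filter (fun b => a (b p) ∈ P)).card := by
    rw [hY]
    apply Finset.card_image_of_injOn
    intro b hb b' hb' h
    simp only [Finset.coe_filter, Set.mem_ofPred_eq] at hb hb' h
    have h1 : b p = b' p := a.injective (by linear_combination h)
    obtain ⟨t, ht⟩ := htr b hb.1
    obtain ⟨t', ht'⟩ := htr b' hb'.1
    have e1 := ht (b0 p)
    have e2 := ht' (b0 p)
    rw [key] at e1 e2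
    have e3 : t = t' := by linear_combination e2 - e1 + h1
    ext z
    have e4 := ht (b0 z)
    have e5 := ht' (b0 z)
    rw [key] at e4 e5
    rw [e4, e5, e3]
  have hYY : ((Y + Y).card : ℝ) ≤ K' / δ * Y.card := by
    have h1 : (Y + Y).card ≤ ((S ^ 4).filter IsTr).card := by
      have hsub : Y + Y ⊆ ((S ^ 4).filter IsTr).image (fun f => a (f 0) - a 0) := by
        intro y hy
        obtain ⟨y1, hy1, y2, hy2, rfl⟩ := Finset.mem_add.mp hy
        rw [hY, Finset.mem_image] at hy1 hy2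
        obtain ⟨b, hb, rfl⟩ := hy1
        obtain ⟨b', hb', rfl⟩ := hy2
        rw [Finset.mem_filter] at hb hb'
        obtain ⟨t, ht⟩ := htr b hb.1
        obtain ⟨t', ht'⟩ := htr b' hb'.1
        have e1 := ht (b0 p)
        have e2 := ht' (b0 p)
        rw [key] at e1 e2
        rw [Finset.mem_image]
        refine ⟨b * b0⁻¹ * (b' * b0⁻¹), ?_, ?_⟩
        · rw [Finset.mem_filter]
          constructor
          · have hinvm : b0⁻¹ ∈ S := by
              rw [← hinv]
              exact Finset.inv_mem_inv (hFS hb0)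
            have : S ^ 4 = S * S * (S * S) := by
              simp only [pow_succ, pow_zero, one_mul, mul_assoc]
            rw [this]
            exact Finset.mul_mem_mul (Finset.mul_mem_mul (hFS hb.1) hinvm)
              (Finset.mul_mem_mul (hFS hb'.1) hinvm)
          · refine ⟨t' + t, ?_⟩
            intro z
            rw [Equiv.Perm.coe_mul, Function.comp_apply, ht, ht']
            ring
        · rw [Equiv.Perm.coe_mul, Function.comp_apply, ht, ht', e1, e2]
          have h3 := hadd (b0 p) t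
          have h4 := hadd (b0 p) t'
          have h5 := g13 a ha t t'
          rw [zero_add, add_comm t' t]
          linear_combination h5 - h3 - h4
      exact (Finset.card_le_card hsub).trans Finset.card_image_le
    have h2 : (F.card : ℝ) ≤ Y.card / δ := by
      rw [le_div_iff₀ hδ, hYcard, mul_comm]
      exact hpF
    calc ((Y + Y).card : ℝ) ≤ (((S ^ 4).filter IsTr).card : ℝ) := by exact_mod_cast h1
      _ ≤ K' * F.card := hT
      _ ≤ K' * (Y.card / δ) := mul_le_mul_of_nonneg_left h2 hK'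
      _ = K' / δ * Y.card := by ring
  have hNY : NL ≤ Y.card := by
    have : (NL : ℝ) ≤ Y.card := hF.trans (by rw [hYcard]; exact hpF)
    exact_mod_cast this
  obtain ⟨q, v, hv, hk⟩ := hNL Y hNY hYY
  have := hP (q + a (b0 p)) v hv
  apply absurd this
  rw [not_le]
  refine lt_of_lt_of_le hk ?_
  apply Finset.card_le_card_of_injOn (fun y => y + a (b0 p))
  · intro y hy
    simp only [Finset.coe_filter, Set.mem_ofPred_eq] at hy ⊢
    obtain ⟨hy, s, hs⟩ := hy
    rw [hY, Finset.mem_image] at hy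
    obtain ⟨b, hb, hby⟩ := hy
    rw [Finset.mem_filter] at hb
    refine ⟨?_, s, ?_⟩
    · rw [← hby, sub_add_cancel]; exact hb.2
    · rw [hs]; ring
  · intro y _ y' _ h
    exact add_right_cancel h

end CORE

open CORE in
theorem stmt_CORE (hG : Stmt_GEO) (hL : Stmt_LIN) : Stmt_CORE := by
  classical
  have hG' := hG
  obtain ⟨g1, g2, g3, g4, g5, g6, g7, g8, g9, g10, g11, g12, g13⟩ := hG
  intro k δ K hδ hK
  obtain ⟨K4, hK4⟩ : ∃ K4 : ℝ, K4 = 2 ^ 6 * K ^ 12 := ⟨_, rfl⟩
  have hK0 : 0 < K := by linarith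
  have hK40 : 0 < K4 := by rw [hK4]; positivity
  obtain ⟨NL, hNL⟩ := hL (K4 / δ) k
  obtain ⟨N0, hN0⟩ : ∃ N0 : ℝ, N0 = NL / δ + 1 := ⟨_, rfl⟩
  have hN00 : 0 < N0 := by rw [hN0]; positivity
  refine ⟨1 / (2 * K * K4 * N0), ⌈2 * K * N0⌉₊, by positivity, ?_⟩
  intro P hP hPne A S a hA hr ha h1 hinv hS hB hpow hN
  obtain ⟨B, hBdef⟩ : ∃ B : Finset Gp, B = S.filter (fun x => a * x ∈ A) := ⟨_, rfl⟩
  rw [← hBdef] at hB
  have hBS : B ⊆ S := by rw [hBdef]; exact Finset.filter_subset _ _
  have hBA : ∀ x ∈ B, a * x ∈ A := by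
    intro x hx
    rw [hBdef, Finset.mem_filter] at hx
    exact hx.2
  have hiso : IsIso a := by
    rcases hA with hA | hA
    · exact Or.inl (hA a ha)
    · exact Or.inr (hA a ha)
  have hApos : (0 : ℝ) < A.card := by exact_mod_cast Finset.card_pos.mpr ⟨a, ha⟩
  have hBpos : (0 : ℝ) < B.card := lt_of_lt_of_le (by positivity) hB
  have hBne : B.Nonempty := Finset.card_pos.mp (by exact_mod_cast hBpos)
  -- the largest fibre
  obtain ⟨θ, hθ, hmax⟩ := Finset.exists_max_image (B.image lin)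
    (fun θ => (B.filter (fun b => lin b = θ)).card) (hBne.image _)
  obtain ⟨F, hF⟩ : ∃ F : Finset Gp, F = B.filter (fun b => lin b = θ) := ⟨_, rfl⟩
  rw [← hF] at hmax
  have hFB : F ⊆ B := by rw [hF]; exact Finset.filter_subset _ _
  have hFne : F.Nonempty := by
    obtain ⟨b, hb, hbθ⟩ := Finset.mem_image.mp hθ
    exact ⟨b, by rw [hF, Finset.mem_filter]; exact ⟨hb, hbθ⟩⟩
  have hcard : B.card ≤ F.card * (B.image lin).card :=
    Finset.card_le_mul_card_image _ _ (fun x hx => hmax x hx)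
  -- the number of translations
  have hT : (((S ^ 4).filter IsTr).card : ℝ) ≤ K4 * F.card := by
    have h2 := trans_bound hG' S hS B hBS
    have h3 : (((S ^ 4).filter IsTr).card : ℝ) * (B.image lin).card ≤
        2 ^ 5 * K ^ (2 * 5 + 1) * A.card := by
      refine le_trans ?_ (hpow 5)
      exact_mod_cast h2
    have h4 : (A.card : ℝ) ≤ 2 * K * B.card := by
      rw [div_le_iff₀ (by positivity)] at hB
      linarith
    have h5 : (B.card : ℝ) ≤ F.card * (B.image lin).card := by exact_mod_cast hcard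
    have h6 : (0 : ℝ) < (B.image lin).card := by
      exact_mod_cast (hBne.image lin).card_pos
    have h7 : (((S ^ 4).filter IsTr).card : ℝ) * (B.image lin).card ≤
        (K4 * F.card) * (B.image lin).card := by
      calc _ ≤ 2 ^ 5 * K ^ (2 * 5 + 1) * (A.card : ℝ) := h3
        _ ≤ 2 ^ 5 * K ^ (2 * 5 + 1) * (2 * K * (F.card * (B.image lin).card)) := by
            apply mul_le_mul_of_nonneg_left _ (by positivity)
            exact h4.trans (mul_le_mul_of_nonneg_left h5 (by positivity))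
        _ = _ := by rw [hK4]; ring
    exact le_of_mul_le_mul_right h7 h6
  by_cases hcase : (NL : ℝ) ≤ δ * F.card
  · exfalso
    refine caseI hG' k δ K4 hδ NL hNL P hP hPne S a hiso hinv hS F (hFB.trans hBS) θ ?_ ?_ hT
      hK40.le hcase hFne
    · intro b hb
      rw [hF, Finset.mem_filter] at hb
      exact hb.2
    · intro b hb
      exact hr _ (hBA b (hFB hb))
  · rw [not_le] at hcase
    have hFN : (F.card : ℝ) < N0 := by
      have : (F.card : ℝ) < NL / δ := by rw [lt_div_iff₀ hδ, mul_comm]; exact hcase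
      rw [hN0]; linarith
    have hBN : N0 ≤ B.card := by
      refine le_trans ?_ hB
      rw [le_div_iff₀ (by positivity)]
      have : 2 * K * N0 ≤ (A.card : ℝ) := Nat.ceil_le.mp hN
      linarith
    -- an element which is not a translation
    obtain ⟨u, hu, huT⟩ : ∃ u ∈ B, ¬ IsTr u := by
      by_contra hcon
      push Not at hcon
      have h2 : B ⊆ B.filter (fun b => lin b = 1) := by
        intro b hb
        rw [Finset.mem_filter]
        exact ⟨hb, (g7 b (hcon b hb)).2⟩
      have h3 : (1 : ℂ) ∈ B.image lin := by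
        obtain ⟨b, hb⟩ := hBne
        exact Finset.mem_image.mpr ⟨b, hb, (g7 b (hcon b hb)).2⟩
      have h4 := (Finset.card_le_card h2).trans (hmax 1 h3)
      have h5 : (B.card : ℝ) ≤ F.card := by exact_mod_cast h4
      linarith
    obtain ⟨c, hc, hcc⟩ := g11 u (hS u (hBS hu)) huT
    -- pigeonhole on commutators
    have hmaps : ∀ v ∈ B, u * v * u⁻¹ * v⁻¹ ∈ (S ^ 4).filter IsTr := by
      intro v hv
      rw [Finset.mem_filter]
      refine ⟨?_, g10 u v (hS u (hBS hu)) (hS v (hBS hv))⟩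
      have hi : ∀ x ∈ S, x⁻¹ ∈ S := by
        intro x hx
        rw [← hinv]
        exact Finset.inv_mem_inv hx
      have : S ^ 4 = S * S * S * S := by
        simp only [pow_succ, pow_zero, one_mul]
      rw [this]
      exact Finset.mul_mem_mul (Finset.mul_mem_mul (Finset.mul_mem_mul (hBS hu) (hBS hv))
        (hi _ (hBS hu))) (hi _ (hBS hv))
    have hTpos : ((S ^ 4).filter IsTr).Nonempty := ⟨_, hmaps u hu⟩
    obtain ⟨y, hy, hyc⟩ : ∃ y ∈ (S ^ 4).filter IsTr,
        (B.card : ℝ) / (K4 * N0) ≤ ((B.filter (fun v => u * v * u⁻¹ * v⁻¹ = y)).card : ℝ) := by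
      by_contra hcon
      push Not at hcon
      have h2 := Finset.card_eq_sum_card_fiberwise (f := fun v => u * v * u⁻¹ * v⁻¹)
        (s := B) (t := (S ^ 4).filter IsTr) (fun v hv => hmaps v hv)
      have h3 : (B.card : ℝ) = ∑ y ∈ (S ^ 4).filter IsTr,
          ((B.filter (fun v => u * v * u⁻¹ * v⁻¹ = y)).card : ℝ) := by exact_mod_cast h2
      have h4 : (B.card : ℝ) < ∑ y ∈ (S ^ 4).filter IsTr, (B.card : ℝ) / (K4 * N0) := by
        conv_lhs => rw [h3]
        exact Finset.sum_lt_sum_of_nonempty hTpos hcon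
      rw [Finset.sum_const, nsmul_eq_mul] at h4
      have h5 : (((S ^ 4).filter IsTr).card : ℝ) ≤ K4 * N0 :=
        hT.trans (mul_le_mul_of_nonneg_left hFN.le hK40.le)
      have h6 : (((S ^ 4).filter IsTr).card : ℝ) * ((B.card : ℝ) / (K4 * N0)) ≤
          K4 * N0 * ((B.card : ℝ) / (K4 * N0)) :=
        mul_le_mul_of_nonneg_right h5 (by positivity)
      have h7 : K4 * N0 * ((B.card : ℝ) / (K4 * N0)) = B.card := by
        field_simp
      linarith
    have hVpos : (0 : ℝ) < ((B.filter (fun v => u * v * u⁻¹ * v⁻¹ = y)).card : ℝ) :=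
      lt_of_lt_of_le (by positivity) hyc
    obtain ⟨v0, hv0⟩ := Finset.card_pos.mp (by exact_mod_cast hVpos)
    rw [Finset.mem_filter] at hv0
    refine ⟨c, a (v0 c), ?_⟩
    have h2 : (B.filter (fun v => u * v * u⁻¹ * v⁻¹ = y)).card ≤
        (A.filter (fun g => g c = a (v0 c))).card := by
      apply Finset.card_le_card_of_injOn (fun v => a * v)
      · intro v hv
        simp only [Finset.coe_filter, Set.mem_ofPred_eq] at hv ⊢
        refine ⟨hBA v hv.1, ?_⟩
        rw [Equiv.Perm.coe_mul, Function.comp_apply]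
        rw [hcc v v0 (hS v (hBS hv.1)) (hS v0 (hBS hv0.1)) (by rw [hv.2, hv0.2])]
      · intro v _ v' _ h
        exact mul_left_cancel h
    have h3 : (((B.filter (fun v => u * v * u⁻¹ * v⁻¹ = y)).card : ℕ) : ℝ) ≤
        ((A.filter (fun g => g c = a (v0 c))).card : ℝ) := by exact_mod_cast h2
    refine le_trans ?_ (hyc.trans h3)
    have h4 : (A.card : ℝ) ≤ 2 * K * B.card := by
      rw [div_le_iff₀ (by positivity)] at hB
      linarith
    rw [div_mul_eq_mul_div, one_mul, div_le_div_iff₀ (by positivity) (by positivity)]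
    have h5 : 0 < K4 * N0 := by positivity
    nlinarith [mul_le_mul_of_nonneg_right h4 h5.le]

end Pool.BK
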