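import Mathlib

/-!
# MP_dc37f8_co: sets with at most `k` points on a line (helper36)

The statements of the blocks. Proofs on paper: BLUEPRINT.md.
-/

set_option autoImplicit false

open Finset

namespace Pool.BK

/-- all maps are permutations of the complex plane -/
abbrev Gp : Type := Equiv.Perm ℂ

/-- direct isometries `z ↦ w z + t` -/
def IsDir (f : Gp) : Prop := ∃ w t : ℂ, ‖w‖ = 1 ∧ ∀ z, f z = w * z + t

/-- opposite isometries `z ↦ w z̄ + t` -/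
def IsOpp (f : Gp) : Prop := ∃ w t : ℂ, ‖w‖ = 1 ∧ ∀ z, f z = w * (starRingEnd ℂ) z + t

/-- isometries -/
def IsIso (f : Gp) : Prop := IsDir f ∨ IsOpp f

/-- translations -/
def IsTr (f : Gp) : Prop := ∃ t : ℂ, ∀ z, f z = z + t

/-- the points of `P` which are mapped to points of `P` -/
noncomputable def st (P : Finset ℂ) (g : Gp) : Finset ℂ := P.filter (fun p => g p ∈ P)

open Classical in
/-- no line contains more than `k` points of `P` -/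
def LB (P : Finset ℂ) (k : ℕ) : Prop :=
  ∀ p v : ℂ, v ≠ 0 → (P.filter (fun q => ∃ s : ℝ, q = p + s * v)).card ≤ k

open Classical in
/-- the congruence classes of triangles (triples of distinct points) of `P` -/
noncomputable def TC (P : Finset ℂ) : Finset (Multiset ℝ) :=
  ((P ×ˢ P ×ˢ P).filter (fun z => z.1 ≠ z.2.1 ∧ z.2.1 ≠ z.2.2 ∧ z.1 ≠ z.2.2)).image
    (fun z => {dist z.1 z.2.1, dist z.2.1 z.2.2, dist z.1 z.2.2})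

/-! ### Part A: groups -/

open scoped Pointwise

/-- BSG (noncommutative Balog-Szemeredi-Gowers) -/
def Stmt_BSG : Prop :=
  ∀ (α K : ℝ), 0 < α → 0 < K → ∃ c K' : ℝ, 0 < c ∧ 1 ≤ K' ∧
    ∀ (G : Type) [Group G] [DecidableEq G] (A U : Finset G), A.Nonempty →
      α * (A.card : ℝ) ^ 2 ≤ ((A ×ˢ A).filter (fun z => z.1 * z.2⁻¹ ∈ U)).card →
      (U.card : ℝ) ≤ K * A.card →
      ∃ A' ⊆ A, c * A.card ≤ A'.card ∧ ((A' * A'⁻¹).card : ℝ) ≤ K' * A'.card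

/-- POP: popular quotients -/
def Stmt_POP : Prop :=
  ∀ (K : ℝ), 1 ≤ K →
    ∀ (G : Type) [Group G] [DecidableEq G] (A : Finset G), A.Nonempty →
      ((A * A⁻¹).card : ℝ) ≤ K * A.card →
      ∃ S : Finset G, ∃ a ∈ A, 1 ∈ S ∧ S⁻¹ = S ∧ S ⊆ A⁻¹ * A ∧
        (A.card : ℝ) / (2 * K) ≤ (S.filter (fun x => a * x ∈ A)).card ∧
        ∀ m : ℕ, ((S ^ m).card : ℝ) ≤ 2 ^ m * K ^ (2 * m + 1) * A.card

open Classical in
/-- LIN: sets of small doubling have rich lines -/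
def Stmt_LIN : Prop :=
  ∀ (K : ℝ) (k : ℕ), ∃ N : ℕ, ∀ Y : Finset ℂ, N ≤ Y.card →
    ((Y + Y).card : ℝ) ≤ K * Y.card →
    ∃ p v : ℂ, v ≠ 0 ∧ k < (Y.filter (fun q => ∃ s : ℝ, q = p + s * v)).card

/-! ### Part B: isometries of the plane -/

/-- GEO: elementary facts on isometries -/
def Stmt_GEO : Prop :=
  (∀ f g : Gp, IsDir f → IsDir g → IsDir (f * g)) ∧
  (∀ f g : Gp, IsOpp f → IsOpp g → IsDir (f * g)) ∧
  (∀ f : Gp, IsDir f → IsDir f⁻¹) ∧ (∀ f : Gp, IsOpp f → IsOpp f⁻¹) ∧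
  (∀ f g : Gp, IsIso f → IsIso g → IsIso (f * g)) ∧
  (∀ f g : Gp, IsDir f → IsDir g → f 1 - f 0 = g 1 - g 0 → IsTr (f * g⁻¹)) ∧
  (∀ f : Gp, IsTr f → IsDir f ∧ f 1 - f 0 = 1) ∧
  (∀ f : Gp, IsDir f → f 1 - f 0 = 1 → IsTr f) ∧
  (∀ f g : Gp, IsTr f → IsDir g → (f * g) 1 - (f * g) 0 = g 1 - g 0) ∧
  (∀ f g : Gp, IsDir f → IsDir g → IsTr (f * g * f⁻¹ * g⁻¹)) ∧
  (∀ f : Gp, IsDir f → ¬ IsTr f → ∃ c : ℂ, f c = c ∧
    ∀ g h : Gp, IsDir g → IsDir h → f * g * f⁻¹ * g⁻¹ = f * h * f⁻¹ * h⁻¹ → g c = h c) ∧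
  (∀ f : Gp, IsIso f → ∀ z w : ℂ, dist (f z) (f w) = dist z w) ∧
  (∀ f : Gp, IsIso f → ∀ z w : ℂ, f (z + w) - f 0 = (f z - f 0) + (f w - f 0))

/-- TWO: at most two isometries map `a ↦ c` and `b ↦ d` -/
def Stmt_TWO : Prop :=
  ∀ (a b c d : ℂ), a ≠ b → ∀ s : Finset Gp,
    (∀ g ∈ s, IsIso g ∧ g a = c ∧ g b = d) → s.card ≤ 2

/-- CON: congruent triples are mapped to each other -/
def Stmt_CON : Prop :=
  ∀ (a b c a' b' c' : ℂ), a ≠ b → dist a b = dist a' b' → dist b c = dist b' c' →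
    dist a c = dist a' c' → ∃ g : Gp, IsIso g ∧ g a = a' ∧ g b = b' ∧ g c = c'

/-! ### Part C: counting -/

/-- PAIR: second moment of the numbers of points that stay in `P` (from TWO) -/
def Stmt_PAIR : Prop :=
  ∀ (P : Finset ℂ) (k : ℕ), LB P k → ∀ 𝒢 : Finset Gp, (∀ g ∈ 𝒢, IsIso g) →
    ∑ g ∈ 𝒢, ((st P g).card : ℝ) * ((st P g).card - 1) ≤ 2 * (k + 1) * (P.card : ℝ) ^ 3

/-- E3: third moment from below (from CON) -/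
def Stmt_E3 : Prop :=
  ∀ P : Finset ℂ, ∃ 𝒢 : Finset Gp, (∀ g ∈ 𝒢, IsIso g) ∧
    ((P.card : ℝ) * (P.card - 1) * (P.card - 2)) ^ 2 ≤
      6 * (TC P).card * ∑ g ∈ 𝒢, ((st P g).card : ℝ) ^ 3

open Classical in
/-- QUO: many quotients of rich isometries are rich (from PAIR, GEO) -/
def Stmt_QUO : Prop :=
  ∀ (k : ℕ) (δ ε : ℝ), 0 < δ → 0 < ε → ∃ (K : ℝ) (n₀ : ℕ), 0 < K ∧
    ∀ (P : Finset ℂ), LB P k → n₀ ≤ P.card → ∀ 𝒢 : Finset Gp, (∀ g ∈ 𝒢, IsIso g) →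
      (∀ g ∈ 𝒢, δ * P.card ≤ (st P g).card) → ε * P.card ≤ (𝒢.card : ℝ) →
      ∃ U : Finset Gp, (U.card : ℝ) ≤ K * 𝒢.card ∧
        δ ^ 2 / 2 * (𝒢.card : ℝ) ^ 2 ≤ ((𝒢 ×ˢ 𝒢).filter (fun z => z.1 * z.2⁻¹ ∈ U)).card

open Classical in
/-- CORE: small doubling gives a common pair of centres (from GEO, LIN). `B` is the set of
`x ∈ S` with `a x ∈ A`. -/
def Stmt_CORE : Prop :=
  ∀ (k : ℕ) (δ K : ℝ), 0 < δ → 1 ≤ K → ∃ (ε' : ℝ) (N : ℕ), 0 < ε' ∧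
    ∀ (P : Finset ℂ), LB P k → P.Nonempty → ∀ (A S : Finset Gp) (a : Gp),
      ((∀ g ∈ A, IsDir g) ∨ (∀ g ∈ A, IsOpp g)) →
      (∀ g ∈ A, δ * P.card ≤ (st P g).card) → a ∈ A → (1 : Gp) ∈ S → S⁻¹ = S →
      (∀ x ∈ S, IsDir x) →
      (A.card : ℝ) / (2 * K) ≤ (S.filter (fun x => a * x ∈ A)).card →
      (∀ m : ℕ, ((S ^ m).card : ℝ) ≤ 2 ^ m * K ^ (2 * m + 1) * A.card) →
      N ≤ A.card → ∃ c c' : ℂ, ε' * A.card ≤ ((A.filter (fun g => g c = c')).card : ℝ)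

/-- STR: rich isometries have a common pair of centres (from QUO, BSG, POP, CORE, GEO) -/
def Stmt_STR : Prop :=
  ∀ (k : ℕ) (δ ε : ℝ), 0 < δ → 0 < ε → ∃ (ε' : ℝ) (n₀ : ℕ), 0 < ε' ∧
    ∀ (P : Finset ℂ), LB P k → n₀ ≤ P.card → ∀ 𝒢 : Finset Gp, (∀ g ∈ 𝒢, IsIso g) →
      (∀ g ∈ 𝒢, δ * P.card ≤ (st P g).card) → ε * P.card ≤ (𝒢.card : ℝ) →
      ∃ c c' : ℂ, ε' * P.card ≤ ((𝒢.filter (fun g => g c = c')).card : ℝ)

open Classical in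
/-- SEL: a bounded number of pairs of centres (from STR, PAIR) -/
def Stmt_SEL : Prop :=
  ∀ (k : ℕ) (δ ε : ℝ), 0 < δ → 0 < ε → ∃ (L n₀ : ℕ),
    ∀ (P : Finset ℂ), LB P k → n₀ ≤ P.card → ∀ 𝒢 : Finset Gp, (∀ g ∈ 𝒢, IsIso g) →
      (∀ g ∈ 𝒢, δ * P.card ≤ (st P g).card) →
      ∃ 𝒬 : Finset (ℂ × ℂ), 𝒬.card ≤ L ∧
        ((𝒢.filter (fun g => ∀ z ∈ 𝒬, g z.1 ≠ z.2)).card : ℝ) ≤ ε * P.card

/-- UP: the third moment over isometries with pairs of centres in `𝒬` (from TWO, GEO) -/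
def Stmt_UP : Prop :=
  ∀ (L : ℕ) (δ η : ℝ), 0 < δ → 0 < η → ∃ n₀ : ℕ,
    ∀ (P : Finset ℂ) (x : ℝ), n₀ ≤ P.card → 0 ≤ x → x ≤ 1 →
      (∀ (c : ℂ) (ρ : ℝ), 0 < ρ → ((P.filter (fun p => dist p c = ρ)).card : ℝ) ≤ x * P.card) →
      ∀ (𝒬 : Finset (ℂ × ℂ)) (𝒢 : Finset Gp), 𝒬.card ≤ L → (∀ g ∈ 𝒢, IsIso g) →
        (∀ g ∈ 𝒢, δ * P.card ≤ (st P g).card) → (∀ g ∈ 𝒢, ∃ z ∈ 𝒬, g z.1 = z.2) →
        ∑ g ∈ 𝒢, ((st P g).card : ℝ) ^ 3 ≤ (2 * x + η) * (P.card : ℝ) ^ 4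

/-- CIRC: a large circle (from E3, PAIR, SEL, UP) -/
def Stmt_CIRC : Prop :=
  ∀ (k : ℕ) (η : ℝ), 0 < η → ∃ n₀ : ℕ, ∀ (P : Finset ℂ), LB P k → n₀ ≤ P.card →
    ∃ (c : ℂ) (ρ : ℝ), 0 < ρ ∧
      (P.card : ℝ) ^ 3 ≤ 12 * (TC P).card *
        (((P.filter (fun p => dist p c = ρ)).card : ℝ) + η * P.card)

end Pool.BK
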