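import Pool.Agent.Work.MP_dc37f8_bk.Interface

set_option autoImplicit false
set_option maxHeartbeats 4000000

open Finset
open scoped Pointwise

namespace Pool.BK.LIN

lemma plu_add {G : Type} [AddCommGroup G] [DecidableEq G] (Y : Finset G) (hY : Y.Nonempty) (K : ℝ)
    (hK : (#(Y + Y) : ℝ) ≤ K * #Y) (m n : ℕ) : (#(m • Y - n • Y) : ℝ) ≤ K ^ (m + n) * #Y := by
  have h := pluennecke_ruzsa_inequality_nsmul_sub_nsmul_add hY Y m n
  have h' : ((#(m • Y - n • Y) : ℚ≥0) : ℝ) ≤ (((#(Y + Y) / #Y : ℚ≥0) ^ (m + n) * #Y : ℚ≥0) : ℝ) := by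
    exact_mod_cast h
  push_cast at h'
  have hpos : (0 : ℝ) < #Y := by exact_mod_cast hY.card_pos
  refine h'.trans ?_
  have h1 : (#(Y + Y) : ℝ) / #Y ≤ K := by rw [div_le_iff₀ hpos]; exact hK
  have h2 : (0 : ℝ) ≤ (#(Y + Y) : ℝ) / #Y := by positivity
  gcongr

lemma rep_add {G : Type} [AddCommGroup G] [DecidableEq G] (Y : Finset G) (hY : Y.Nonempty) (K : ℝ)
    (hK1 : 1 ≤ K) (hK : (#(Y + Y) : ℝ) ≤ K * #Y) (M : ℕ)
    (hM : K ^ (∑ j ∈ Finset.range (M + 1), (2 * j + 1)) < #Y) :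
    (#(Y + ((Y - Y) - (Y - Y))) : ℝ) ≤ K ^ 5 * #Y ∧
    ∃ v : G, v ≠ 0 ∧ ∀ j ≤ M, j • v ∈ (Y - Y) - (Y - Y) := by
  classical
  have hpos : (0 : ℝ) < #Y := by exact_mod_cast hY.card_pos
  refine ⟨?_, ?_⟩
  · have hsub : Y + ((Y - Y) - (Y - Y)) ⊆ 3 • Y - 2 • Y := by
      intro z hz
      obtain ⟨y, hy, u, hu, rfl⟩ := Finset.mem_add.mp hz
      obtain ⟨a, ha, b, hb, rfl⟩ := Finset.mem_sub.mp hu
      obtain ⟨c, hc, d, hd, rfl⟩ := Finset.mem_sub.mp ha
      obtain ⟨e, he, f, hf, rfl⟩ := Finset.mem_sub.mp hb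
      have h1 : y + c + f ∈ 3 • Y := by
        rw [succ_nsmul, two_nsmul]
        exact Finset.add_mem_add (Finset.add_mem_add hy hc) hf
      have h2 : d + e ∈ 2 • Y := by
        rw [two_nsmul]; exact Finset.add_mem_add hd he
      have h3 : y + (c - d - (e - f)) = (y + c + f) - (d + e) := by abel
      rw [h3]
      exact Finset.sub_mem_sub h1 h2
    have h := plu_add Y hY K hK 3 2
    exact (Nat.cast_le.mpr (Finset.card_le_card hsub)).trans h
  · have hcov : ∀ j : ℕ, ∃ F : Finset G, (#F : ℝ) ≤ K ^ (2 * j + 1) ∧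
        j • Y - j • Y ⊆ F + (Y - Y) := by
      intro j
      have h1 : (#((j • Y - j • Y) + Y) : ℝ) ≤ K ^ (2 * j + 1) * #Y := by
        have h2 := plu_add Y hY K hK (j + 1) j
        have h3 : (j • Y - j • Y) + Y = (j + 1) • Y - j • Y := by
          rw [succ_nsmul, sub_add_eq_add_sub]
        rw [h3]
        have h4 : j + 1 + j = 2 * j + 1 := by ring
        rw [h4] at h2
        exact h2
      obtain ⟨F, _, hF, hF2⟩ := Finset.ruzsa_covering_add hY h1
      exact ⟨F, hF, hF2⟩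
    choose F hF1 hF2 using hcov
    have hmem : ∀ h ∈ Y - Y, ∀ j : ℕ, j • h ∈ F j + (Y - Y) := by
      intro h hh j
      obtain ⟨a, ha, b, hb, rfl⟩ := Finset.mem_sub.mp hh
      apply hF2 j
      rw [nsmul_sub]
      exact Finset.sub_mem_sub (Finset.nsmul_mem_nsmul ha) (Finset.nsmul_mem_nsmul hb)
    have hch : ∀ h : G, ∀ j : ℕ, ∃ x : G, h ∈ Y - Y → x ∈ F j ∧ j • h - x ∈ Y - Y := by
      intro h j
      by_cases hh : h ∈ Y - Y
      · obtain ⟨x, hx, w, hw, hxw⟩ := Finset.mem_add.mp (hmem h hh j)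
        refine ⟨x, fun _ => ⟨hx, ?_⟩⟩
        rw [← hxw, add_sub_cancel_left]
        exact hw
      · exact ⟨0, fun h' => absurd h' hh⟩
    choose φ hφ using hch
    let Φ : G → (Fin (M + 1) → G) := fun h j => φ h j
    have hmaps : ∀ h ∈ Y - Y, Φ h ∈ Fintype.piFinset (fun j : Fin (M + 1) => F j) := by
      intro h hh
      rw [Fintype.mem_piFinset]
      intro j
      exact (hφ h j hh).1
    have hcard : (#(Fintype.piFinset (fun j : Fin (M + 1) => F j)) : ℝ) ≤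
        K ^ (∑ j ∈ Finset.range (M + 1), (2 * j + 1)) := by
      rw [Fintype.card_piFinset, Nat.cast_prod, ← Finset.prod_pow_eq_pow_sum,
        Finset.prod_range (fun j => K ^ (2 * j + 1))]
      exact Finset.prod_le_prod (fun i _ => by positivity) (fun i _ => hF1 i)
    have hlt : #(Fintype.piFinset (fun j : Fin (M + 1) => F j)) < #(Y - Y) := by
      have h1 : #Y ≤ #(Y - Y) := Finset.card_le_card_sub_left hY
      have h2 : (#(Fintype.piFinset (fun j : Fin (M + 1) => F j)) : ℝ) < #(Y - Y) :=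
        (hcard.trans_lt hM).trans_le (by exact_mod_cast h1)
      exact_mod_cast h2
    obtain ⟨h, hh, h', hh', hne, heq⟩ := Finset.exists_ne_map_eq_of_card_lt_of_maps_to hlt hmaps
    refine ⟨h - h', fun h1 => hne (sub_eq_zero.mp h1), ?_⟩
    intro j hj
    have h1 := (hφ h j hh).2
    have h2 := (hφ h' j hh').2
    have h3 : φ h j = φ h' j := congrFun heq (⟨j, by omega⟩ : Fin (M + 1))
    rw [← h3] at h2
    have h4 : j • (h - h') = (j • h - φ h j) - (j • h' - φ h j) := by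
      rw [nsmul_sub]; abel
    rw [h4]
    exact Finset.sub_mem_sub h1 h2

end Pool.BK.LIN

namespace Pool.BK

theorem stmt_LIN : Stmt_LIN := by
  classical
  intro K k
  obtain ⟨K', hK1, hKK⟩ : ∃ K' : ℝ, 1 ≤ K' ∧ K ≤ K' := ⟨max K 1, le_max_right _ _, le_max_left _ _⟩
  obtain ⟨M, hM⟩ := exists_nat_gt ((k : ℝ) * K' ^ 5)
  obtain ⟨N, hN⟩ := exists_nat_gt (K' ^ (∑ j ∈ Finset.range (M + 1), (2 * j + 1)))
  refine ⟨N + 1, fun Y hY hYK => ?_⟩
  have hYne : Y.Nonempty := Finset.card_pos.mp (by omega)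
  have hYK' : (#(Y + Y) : ℝ) ≤ K' * #Y := hYK.trans (by gcongr)
  have hNY : K' ^ (∑ j ∈ Finset.range (M + 1), (2 * j + 1)) < #Y := by
    refine hN.trans_le ?_
    exact_mod_cast (by omega : N ≤ #Y)
  obtain ⟨hZ, v, hv0, hv⟩ := LIN.rep_add Y hYne K' hK1 hYK' M hNY
  have hmaps : ∀ w ∈ Y ×ˢ Finset.range (M + 1), w.1 + w.2 • v ∈ Y + ((Y - Y) - (Y - Y)) := by
    rintro ⟨y, j⟩ hw
    rw [Finset.mem_product, Finset.mem_range] at hw
    exact Finset.add_mem_add hw.1 (hv j (by omega))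
  have hlt : #(Y + ((Y - Y) - (Y - Y))) * k < #(Y ×ˢ Finset.range (M + 1)) := by
    rw [Finset.card_product, Finset.card_range]
    have hpos : (0 : ℝ) < #Y := by exact_mod_cast hYne.card_pos
    have h : ((#(Y + ((Y - Y) - (Y - Y))) * k : ℕ) : ℝ) < ((#Y * (M + 1) : ℕ) : ℝ) := by
      push_cast
      calc (#(Y + ((Y - Y) - (Y - Y))) : ℝ) * k ≤ (K' ^ 5 * #Y) * k := by gcongr
        _ = (k * K' ^ 5) * #Y := by ring
        _ < (M + 1) * #Y := by
            have : (k : ℝ) * K' ^ 5 < M + 1 := hM.trans (by linarith)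
            exact mul_lt_mul_of_pos_right this hpos
        _ = #Y * (M + 1) := by ring
    exact_mod_cast h
  obtain ⟨z, _, hz⟩ := Finset.exists_lt_card_fiber_of_mul_lt_card_of_maps_to hmaps hlt
  refine ⟨z, v, hv0, hz.trans_le ?_⟩
  apply Finset.card_le_card_of_injOn (fun w : ℂ × ℕ => w.1)
  · rintro ⟨y, j⟩ hw
    simp only [Finset.coe_filter, Finset.mem_product, Set.mem_ofPred_eq] at hw ⊢
    refine ⟨hw.1.1, -(j : ℝ), ?_⟩
    have := hw.2
    rw [← this, nsmul_eq_mul]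
    push_cast
    ring
  · rintro ⟨y, j⟩ hw ⟨y', j'⟩ hw' heq
    simp only [Finset.coe_filter, Finset.mem_product, Set.mem_ofPred_eq] at hw hw' heq
    subst heq
    have h1 : (j : ℂ) * v = (j' : ℂ) * v := by
      have h2 := hw.2.trans hw'.2.symm
      rw [nsmul_eq_mul, nsmul_eq_mul] at h2
      exact add_left_cancel h2
    have h3 : (j : ℂ) = j' := mul_right_cancel₀ hv0 h1
    have h4 : j = j' := by exact_mod_cast h3
    rw [h4]

end Pool.BK
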