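import Pool.Agent.Work.MP_dc37f8_bk.Interface

/-!
# MP_dc37f8_co, block STR (helper83): rich isometries have a common pair of centres
-/

set_option autoImplicit false

open Finset

namespace Pool.BK

namespace STR

open scoped Pointwise

open Classical in
theorem half (𝒢 : Finset Gp) (h : ∀ g ∈ 𝒢, IsIso g) :
    ∃ H ⊆ 𝒢, ((∀ g ∈ H, IsDir g) ∨ (∀ g ∈ H, IsOpp g)) ∧ (𝒢.card : ℝ) / 2 ≤ H.card := by
  have h1 : 𝒢.card ≤ (𝒢.filter fun g => IsDir g).card + (𝒢.filter fun g => IsOpp g).card := by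
    refine le_trans (card_le_card ?_) (card_union_le _ _)
    intro g hg
    rw [mem_union, mem_filter, mem_filter]
    rcases h g hg with h2 | h2
    · exact Or.inl ⟨hg, h2⟩
    · exact Or.inr ⟨hg, h2⟩
  have h1' : (𝒢.card : ℝ) ≤ ((𝒢.filter fun g => IsDir g).card : ℝ) +
      ((𝒢.filter fun g => IsOpp g).card : ℝ) := by
    exact_mod_cast h1
  rcases le_total ((𝒢.filter fun g => IsOpp g).card : ℝ) ((𝒢.filter fun g => IsDir g).card : ℝ)
    with h3 | h3
  · refine ⟨𝒢.filter fun g => IsDir g, filter_subset _ _, Or.inl ?_, by linarith⟩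
    intro g hg
    exact (mem_filter.mp hg).2
  · refine ⟨𝒢.filter fun g => IsOpp g, filter_subset _ _, Or.inr ?_, by linarith⟩
    intro g hg
    exact (mem_filter.mp hg).2

end STR

open scoped Pointwise

theorem stmt_STR (hQUO : Stmt_QUO) (hBSG : Stmt_BSG) (hPOP : Stmt_POP) (hCORE : Stmt_CORE)
    (hGEO : Stmt_GEO) : Stmt_STR := by
  classical
  intro k δ ε hδ hε
  obtain ⟨K₀, n₀, hK₀, hQ⟩ := hQUO k δ (ε / 2) hδ (by positivity)
  obtain ⟨c, K', hc, hK', hB⟩ := hBSG (δ ^ 2 / 2) K₀ (by positivity) hK₀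
  obtain ⟨ε₁, N, hε₁, hC⟩ := hCORE k δ K' hδ hK'
  obtain ⟨M, hM⟩ := exists_nat_ge (2 * (N : ℝ) / (c * ε))
  refine ⟨ε₁ * (c * (ε / 2)), max n₀ (max 1 M), by positivity, ?_⟩
  intro P hLB hn 𝒢 hIso hst hcard
  have hn0 : n₀ ≤ P.card := le_trans (le_max_left _ _) hn
  have hn1 : 1 ≤ P.card := le_trans (le_trans (le_max_left _ _) (le_max_right _ _)) hn
  have hnM : M ≤ P.card := le_trans (le_trans (le_max_right _ _) (le_max_right _ _)) hn
  have hP1 : (1 : ℝ) ≤ P.card := by exact_mod_cast hn1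
  have hPM : (M : ℝ) ≤ P.card := by exact_mod_cast hnM
  obtain ⟨H, hHs, hH, hHc⟩ := STR.half 𝒢 hIso
  have hHc2 : ε / 2 * P.card ≤ (H.card : ℝ) := by linarith
  have hHpos : (0 : ℝ) < H.card := lt_of_lt_of_le (by positivity) hHc2
  have hHne : H.Nonempty := by
    rw [← card_pos]
    exact_mod_cast hHpos
  obtain ⟨U, hU1, hU2⟩ := hQ P hLB hn0 H (fun g hg => hIso g (hHs hg))
    (fun g hg => hst g (hHs hg)) hHc2
  obtain ⟨A, hAs, hAc, hAK⟩ := hB Gp H U hHne
    hU2 hU1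
  have hApos : (0 : ℝ) < A.card := lt_of_lt_of_le (by positivity) hAc
  have hAne : A.Nonempty := by
    rw [← card_pos]
    exact_mod_cast hApos
  obtain ⟨S, a, haA, h1S, hSinv, hSsub, hSc, hSm⟩ := hPOP K' hK' Gp A hAne hAK
  have hAD : (∀ g ∈ A, IsDir g) ∨ (∀ g ∈ A, IsOpp g) := by
    rcases hH with h | h
    · exact Or.inl fun g hg => h g (hAs hg)
    · exact Or.inr fun g hg => h g (hAs hg)
  obtain ⟨g1, g2, g3, g4, -⟩ := hGEO
  have hSD : ∀ x ∈ S, IsDir x := by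
    intro x hx
    obtain ⟨y, hy, z, hz, rfl⟩ := Finset.mem_mul.mp (hSsub hx)
    rw [Finset.mem_inv'] at hy
    rcases hAD with h | h
    · have h5 := g3 _ (h _ hy)
      rw [inv_inv] at h5
      exact g1 _ _ h5 (h _ hz)
    · have h5 := g4 _ (h _ hy)
      rw [inv_inv] at h5
      exact g2 _ _ h5 (h _ hz)
  have hcA : c * (ε / 2) * P.card ≤ A.card := by
    calc c * (ε / 2) * P.card = c * (ε / 2 * P.card) := by ring
      _ ≤ c * H.card := mul_le_mul_of_nonneg_left hHc2 hc.le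
      _ ≤ A.card := hAc
  have hNA : N ≤ A.card := by
    have h6 : (N : ℝ) ≤ A.card := by
      refine le_trans ?_ hcA
      have h7 : 2 * (N : ℝ) / (c * ε) ≤ P.card := le_trans hM hPM
      rw [div_le_iff₀ (by positivity)] at h7
      linarith
    exact_mod_cast h6
  obtain ⟨z, z', hz⟩ := hC P hLB (card_pos.mp (by omega)) A S a hAD
    (fun g hg => hst g (hHs (hAs hg))) haA h1S hSinv hSD hSc hSm hNA
  refine ⟨z, z', ?_⟩
  have h8 : (A.filter (fun g => g z = z')).card ≤ (𝒢.filter (fun g => g z = z')).card :=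
    card_le_card (filter_subset_filter _ (hAs.trans hHs))
  have h9 : ((A.filter (fun g => g z = z')).card : ℝ) ≤ ((𝒢.filter (fun g => g z = z')).card : ℝ) :=
    by exact_mod_cast h8
  calc ε₁ * (c * (ε / 2)) * P.card = ε₁ * (c * (ε / 2) * P.card) := by ring
    _ ≤ ε₁ * A.card := mul_le_mul_of_nonneg_left hcA hε₁.le
    _ ≤ _ := le_trans hz h9

end Pool.BK
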